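import Pool.Agent.MP_221c76_co.Tm.St

universe u

namespace Pool.Agent.MP_221c76_co.Tm

open MultiGraph Set

/-- edge-induced subgraph -/
def span (G : MultiGraph.{u}) (C : Set G.E) : G.Subgraph where
  verts := {v | ∃ e ∈ C, v ∈ G.ends e}
  edges := C
  ends_mem e he _ hv := ⟨e, he, hv⟩

structure Hyp (P : Set MultiGraph.{u}) : Prop where
  mat : ∀ Γ : MultiGraph.{u}, ∃ M : Matroid Γ.E, M.E = univ ∧ ∀ C : Set Γ.E,
    M.IsCircuit C ↔ ∃ S : Γ.Subgraph, S.edges = C ∧ ∃ H ∈ P, S.toGraph.Iso H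
  noiso : ∀ G ∈ P, G.NoIsolatedVertex
  cl : ∀ G ∈ P, ∀ H, G.Homeomorphic H → H ∈ P

def Circ (P : Set MultiGraph.{u}) (G : MultiGraph.{u}) (C : Set G.E) : Prop :=
  (span G C).toGraph ∈ P

lemma homeo_of_iso {G H : MultiGraph.{u}} (h : G.Iso H) : G.Homeomorphic H :=
  ⟨G, ⟨G, iso_refl G, .refl⟩, ⟨H, h, .refl⟩⟩

lemma homeo_of_step {K G : MultiGraph.{u}} (h : K.SubdivStep G) : K.Homeomorphic G :=
  ⟨K, ⟨K, iso_refl K, .refl⟩, ⟨K, iso_refl K, .single h⟩⟩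

lemma homeo_of_step' {K G : MultiGraph.{u}} (h : K.SubdivStep G) : G.Homeomorphic K :=
  ⟨K, ⟨K, iso_refl K, .single h⟩, ⟨K, iso_refl K, .refl⟩⟩

lemma toGraph_ends {G : MultiGraph.{u}} (S : G.Subgraph) (e : S.toGraph.E) :
    (S.toGraph.ends e).map Subtype.val = G.ends e.1 :=
  Sym2.attachWith_map_subtypeVal _

lemma toGraph_ends_eq {G : MultiGraph.{u}} (S : G.Subgraph) (e : S.toGraph.E)
    (z : Sym2 S.toGraph.V) (h : G.ends e.1 = z.map Subtype.val) : S.toGraph.ends e = z :=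
  Sym2.map.injective Subtype.val_injective ((toGraph_ends S e).trans h)

lemma mem_toGraph_ends {G : MultiGraph.{u}} (S : G.Subgraph) (e : S.toGraph.E)
    (v : S.toGraph.V) : v ∈ S.toGraph.ends e ↔ v.1 ∈ G.ends e.1 := by
  rw [← toGraph_ends S e]
  refine Iff.trans ?_ Sym2.mem_map.symm
  refine ⟨fun h => ⟨v, h, rfl⟩, fun ⟨a, ha, h⟩ => ?_⟩
  have h1 : a = v := Subtype.ext h
  exact h1 ▸ ha

lemma toGraph_ends_map {G G' : MultiGraph.{u}} (S : G.Subgraph) (S' : G'.Subgraph)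
    (e : S.toGraph.E) (e' : S'.toGraph.E) (Φ : S.toGraph.V → S'.toGraph.V) (φ : G.V → G'.V)
    (hΦ : ∀ x, (Φ x).1 = φ x.1) (h : G'.ends e'.1 = (G.ends e.1).map φ) :
    S'.toGraph.ends e' = (S.toGraph.ends e).map Φ := by
  apply toGraph_ends_eq
  refine h.trans ?_
  refine (congrArg (Sym2.map φ) (toGraph_ends S e).symm).trans ?_
  refine (Sym2.map_map _).trans (Eq.trans ?_ (Sym2.map_map _).symm)
  exact Sym2.map_congr fun x _ => (hΦ x).symm

lemma span_iso {Γ Γ' : MultiGraph.{u}} {C : Set Γ.E} {C' : Set Γ'.E} (φ : Γ.V → Γ'.V)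
    (σ : C ≃ C') (hφ : InjOn φ (span Γ C).verts)
    (h : ∀ e : C, Γ'.ends (σ e) = (Γ.ends e).map φ) :
    (span Γ C).toGraph.Iso (span Γ' C').toGraph := by
  have hm : ∀ x : (span Γ C).verts, φ x ∈ (span Γ' C').verts := by
    rintro ⟨x, e, he, hx⟩
    refine ⟨σ ⟨e, he⟩, (σ ⟨e, he⟩).2, ?_⟩
    rw [h, Sym2.mem_map]
    exact ⟨x, hx, rfl⟩
  refine iso_of_maps (G := (span Γ C).toGraph) (H := (span Γ' C').toGraph)
    (fun x : (span Γ C).verts => (⟨φ x, hm x⟩ : (span Γ' C').verts)) σ ⟨?_, ?_⟩ σ.bijective ?_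
  · intro x y hxy
    exact Subtype.ext (hφ x.2 y.2 (congrArg Subtype.val hxy))
  · rintro ⟨y, e', he', hy⟩
    have h1 := h (σ.symm ⟨e', he'⟩)
    rw [Equiv.apply_symm_apply] at h1
    change Γ'.ends e' = _ at h1
    rw [h1, Sym2.mem_map] at hy
    obtain ⟨x, hx, rfl⟩ := hy
    exact ⟨⟨x, _, (σ.symm ⟨e', he'⟩).2, hx⟩, rfl⟩
  · intro e
    exact toGraph_ends_map _ _ _ _ _ φ (fun _ => rfl) (h e)

variable {P : Set MultiGraph.{u}}

lemma Hyp.iso_mem (hP : Hyp P) {G H : MultiGraph.{u}} (hG : G ∈ P) (h : G.Iso H) : H ∈ P :=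
  hP.cl G hG H (homeo_of_iso h)

lemma Hyp.circ_iff (hP : Hyp P) (Γ : MultiGraph.{u}) (C : Set Γ.E) :
    (∃ S : Γ.Subgraph, S.edges = C ∧ ∃ H ∈ P, S.toGraph.Iso H) ↔ Circ P Γ C := by
  constructor
  · rintro ⟨S, rfl, H, hH, h⟩
    have h1 : S.toGraph ∈ P := hP.iso_mem hH (iso_symm h)
    have h2 := hP.noiso _ h1
    have hm : ∀ x : S.verts, x.1 ∈ (span Γ S.edges).verts := by
      intro x
      obtain ⟨e, he⟩ := h2 x
      exact ⟨e.1, e.2, (mem_toGraph_ends S e x).1 he⟩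
    refine hP.iso_mem h1 (iso_of_maps (G := S.toGraph) (H := (span Γ S.edges).toGraph)
      (fun x : S.verts => (⟨x.1, hm x⟩ : (span Γ S.edges).verts)) id ⟨?_, ?_⟩
      Function.bijective_id ?_)
    · intro x y hxy
      exact Subtype.ext (Subtype.mk.inj hxy)
    · rintro ⟨y, e, he, hy⟩
      exact ⟨⟨y, S.ends_mem e he y hy⟩, rfl⟩
    · intro e
      exact toGraph_ends_map _ _ _ _ _ id (fun _ => rfl) (by simp)
  · intro h
    exact ⟨span Γ C, rfl, _, h, iso_refl _⟩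

/-- the matroid of a graph -/
noncomputable def Hyp.M (hP : Hyp P) (Γ : MultiGraph.{u}) : Matroid Γ.E := (hP.mat Γ).choose

lemma Hyp.M_ground (hP : Hyp P) (Γ : MultiGraph.{u}) : (hP.M Γ).E = univ :=
  (hP.mat Γ).choose_spec.1

lemma Hyp.M_circ (hP : Hyp P) {Γ : MultiGraph.{u}} {C : Set Γ.E} :
    (hP.M Γ).IsCircuit C ↔ Circ P Γ C :=
  ((hP.mat Γ).choose_spec.2 C).trans (hP.circ_iff Γ C)

lemma Hyp.univ_circ (hP : Hyp P) {G : MultiGraph.{u}} (hG : G ∈ P) : (hP.M G).IsCircuit univ := by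
  rw [(hP.mat G).choose_spec.2 univ |> fun h => (show (hP.M G).IsCircuit univ ↔ _ from h)]
  refine ⟨⟨univ, univ, fun _ _ _ _ => trivial⟩, rfl, G, hG, ?_⟩
  refine iso_of_maps Subtype.val Subtype.val ⟨Subtype.val_injective, fun x => ⟨⟨x, trivial⟩, rfl⟩⟩
    ⟨Subtype.val_injective, fun x => ⟨⟨x, trivial⟩, rfl⟩⟩ fun e => ?_
  exact (toGraph_ends _ e).symm

lemma Hyp.equiv (hP : Hyp P) {Γ Γ' : MultiGraph.{u}} {C : Set Γ.E} {C' : Set Γ'.E}
    (φ : Γ.V → Γ'.V) (σ : C ≃ C') (hφ : InjOn φ (span Γ C).verts)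
    (h : ∀ e : C, Γ'.ends (σ e) = (Γ.ends e).map φ) :
    (hP.M Γ).IsCircuit C ↔ (hP.M Γ').IsCircuit C' := by
  rw [hP.M_circ, hP.M_circ]
  exact ⟨fun h1 => hP.iso_mem h1 (span_iso φ σ hφ h),
    fun h1 => hP.iso_mem h1 (iso_symm (span_iso φ σ hφ h))⟩

lemma Hyp.transfer (hP : Hyp P) {Γ Γ' : MultiGraph.{u}} {C : Set Γ.E}
    (φ : Γ.V → Γ'.V) (ψ : Γ.E → Γ'.E) (hφ : Function.Injective φ) (hψ : InjOn ψ C)
    (h : ∀ e ∈ C, Γ'.ends (ψ e) = (Γ.ends e).map φ) :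
    (hP.M Γ).IsCircuit C ↔ (hP.M Γ').IsCircuit (ψ '' C) :=
  hP.equiv φ (Equiv.Set.imageOfInjOn ψ C hψ) hφ.injOn fun e => h e.1 e.2

/-- subdivision inside an ambient graph -/
lemma Hyp.subdiv (hP : Hyp P) {Γ : MultiGraph.{u}} {C : Set Γ.E} {e f g : Γ.E} {a b w : Γ.V}
    (he : e ∈ C) (hab : Γ.ends e = s(a, b)) (hw : ∀ x ∈ C, w ∉ Γ.ends x) (hfg : f ≠ g)
    (hf : Γ.ends f = s(a, w)) (hg : Γ.ends g = s(w, b)) :
    (hP.M Γ).IsCircuit C ↔ (hP.M Γ).IsCircuit (insert f (insert g (C \ {e}))) := by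
  classical
  have hfC : f ∉ C := fun h => hw f h (by rw [hf]; exact Sym2.mem_mk_right _ _)
  have hgC : g ∉ C := fun h => hw g h (by rw [hg]; exact Sym2.mem_mk_left _ _)
  have ha : a ∈ (span Γ C).verts := ⟨e, he, by rw [hab]; exact Sym2.mem_mk_left _ _⟩
  have hb : b ∈ (span Γ C).verts := ⟨e, he, by rw [hab]; exact Sym2.mem_mk_right _ _⟩
  set C' : Set Γ.E := insert f (insert g (C \ {e})) with hC'
  have hfm : f ∈ C' := mem_insert _ _
  have hgm : g ∈ C' := mem_insert_of_mem _ (mem_insert _ _)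
  have hxm : ∀ x ∈ C, x ≠ e → x ∈ C' := fun x hx hxe =>
    mem_insert_of_mem _ (mem_insert_of_mem _ ⟨hx, hxe⟩)
  have hv : ∀ x : (span Γ C).verts, x.1 ∈ (span Γ C').verts := by
    rintro ⟨x, y, hy, hx⟩
    by_cases hye : y = e
    · rw [hye, hab, Sym2.mem_iff] at hx
      rcases hx with rfl | rfl
      · exact ⟨f, hfm, by rw [hf]; exact Sym2.mem_mk_left _ _⟩
      · exact ⟨g, hgm, by rw [hg]; exact Sym2.mem_mk_right _ _⟩
    · exact ⟨y, hxm y hy hye, hx⟩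
  have hwm : w ∈ (span Γ C').verts := ⟨f, hfm, by rw [hf]; exact Sym2.mem_mk_right _ _⟩
  have hψ : ∀ x : C, (if x.1 = e then f else x.1) ∈ C' := by
    intro x
    split_ifs with h
    · exact hfm
    · exact hxm x.1 x.2 h
  have key : (span Γ C).toGraph.SubdivStep (span Γ C').toGraph := by
    refine subdiv_of_maps (K := (span Γ C).toGraph) (G := (span Γ C').toGraph)
      (fun x : (span Γ C).verts => (⟨x.1, hv x⟩ : (span Γ C').verts))
      (fun x : C => (⟨if x.1 = e then f else x.1, hψ x⟩ : C')) ⟨e, he⟩ ⟨a, ha⟩ ⟨b, hb⟩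
      ⟨w, hwm⟩ ⟨g, hgm⟩ ?_ ?_ ?_ ?_ ?_ ?_ ?_ ?_ ?_ ?_
    · intro x y hxy
      exact Subtype.ext (Subtype.mk.inj hxy)
    · intro x y hxy
      have h1 : (if x.1 = e then f else x.1) = (if y.1 = e then f else y.1) :=
        congrArg Subtype.val hxy
      apply Subtype.ext
      split_ifs at h1 with h2 h3 h3
      · rw [h2, h3]
      · exact absurd (h1 ▸ y.2) hfC
      · exact absurd (h1 ▸ x.2) hfC
      · exact h1
    · rintro ⟨x, y, hy, hx⟩ h
      have h1 : x = w := congrArg Subtype.val h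
      exact hw y hy (h1 ▸ hx)
    · rintro ⟨x, y, hy, hx⟩ h
      have h1 : x ≠ w := fun h2 => h (Subtype.ext h2)
      rcases hy with rfl | rfl | hy
      · rw [hf, Sym2.mem_iff] at hx
        rcases hx with rfl | rfl
        · exact ⟨⟨_, ha⟩, rfl⟩
        · exact absurd rfl h1
      · rw [hg, Sym2.mem_iff] at hx
        rcases hx with rfl | rfl
        · exact absurd rfl h1
        · exact ⟨⟨_, hb⟩, rfl⟩
      · exact ⟨⟨x, y, hy.1, hx⟩, rfl⟩
    · intro x h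
      have h1 : (if x.1 = e then f else x.1) = g := congrArg Subtype.val h
      split_ifs at h1
      · exact hfg h1
      · exact hgC (h1 ▸ x.2)
    · rintro ⟨y, hy⟩ h
      have h1 : y ≠ g := fun h2 => h (Subtype.ext h2)
      rcases hy with rfl | rfl | hy
      · exact ⟨⟨e, he⟩, Subtype.ext (if_pos rfl)⟩
      · exact absurd rfl h1
      · exact ⟨⟨y, hy.1⟩, Subtype.ext (if_neg hy.2)⟩
    · exact toGraph_ends_eq _ _ _ hab
    · apply toGraph_ends_eq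
      change Γ.ends (if e = e then f else e) = _
      rw [if_pos rfl, hf]; rfl
    · exact toGraph_ends_eq _ _ _ hg
    · intro x hx
      have h1 : x.1 ≠ e := fun h2 => hx (Subtype.ext h2)
      refine toGraph_ends_map _ _ _ _ _ id (fun _ => rfl) ?_
      change Γ.ends (if x.1 = e then f else x.1) = _
      rw [if_neg h1, Sym2.map_id]
      rfl
  rw [hP.M_circ, hP.M_circ]
  exact ⟨fun h => hP.cl _ h _ (homeo_of_step key), fun h => hP.cl _ h _ (homeo_of_step' key)⟩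

end Pool.Agent.MP_221c76_co.Tm
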