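import Pool.Agent.MP_221c76_co.Tm.Api

universe u

namespace Pool.Agent.MP_221c76_co.Tm

open MultiGraph Set

/-- A graph with countably many new vertices and countably many new edges between any two
vertices. -/
abbrev big (G : MultiGraph.{u}) : MultiGraph.{u} where
  V := G.V ⊕ ℕ
  E := G.E ⊕ (Sym2 (G.V ⊕ ℕ) × ℕ)
  ends := Sum.elim (fun e => (G.ends e).map Sum.inl) Prod.fst

variable {P : Set MultiGraph.{u}}

lemma Hyp.big_iff (hP : Hyp P) {G : MultiGraph.{u}} {C : Set G.E} :
    (hP.M G).IsCircuit C ↔ (hP.M (big G)).IsCircuit (Sum.inl '' C) :=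
  hP.transfer (Γ' := big G) Sum.inl Sum.inl Sum.inl_injective Sum.inl_injective.injOn
    fun _ _ => rfl

lemma inr_notMem {α : Type u} (z : Sym2 α) (n : ℕ) :
    (Sum.inr n : α ⊕ ℕ) ∉ z.map Sum.inl := by
  rw [Sym2.mem_map]
  rintro ⟨a, -, h⟩
  cases h

lemma Hyp.no_leaf (hP : Hyp P) {G : MultiGraph.{u}} {D : Set G.E} (hD : (hP.M G).IsCircuit D)
    {e : G.E} {a w : G.V} (he : e ∈ D) (hab : G.ends e = s(a, w)) (haw : a ≠ w) :
    ∃ e' ∈ D, e' ≠ e ∧ w ∈ G.ends e' := by
  classical
  by_contra hc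
  push Not at hc
  let φ : G.V → (big G).V := fun x => if x = w then .inr 0 else .inl x
  let e' : (big G).E := .inr (s(.inl a, .inr 0), 0)
  let ψ : G.E → (big G).E := fun x => if x = e then e' else .inl x
  let g : (big G).E := .inr (s(.inl w, .inr 0), 0)
  have hφ : Function.Injective φ := by
    intro x y h
    simp only [φ] at h
    split_ifs at h with h1 h2 h2
    · rw [h1, h2]
    · exact Sum.inl_injective h
  have hψ : Function.Injective ψ := by
    intro x y h
    simp only [ψ, e'] at h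
    split_ifs at h with h1 h2 h2
    · rw [h1, h2]
    · exact Sum.inl_injective h
  have hends : ∀ x ∈ D, (big G).ends (ψ x) = (G.ends x).map φ := by
    intro x hx
    by_cases hxe : x = e
    · simp [ψ, φ, hxe, hab, e', haw]
    · simp only [ψ, if_neg hxe, Sum.elim_inl]
      refine Sym2.map_congr fun y hy => ?_
      have : y ≠ w := fun h => hc x hx hxe (h ▸ hy)
      simp [φ, this]
  have h2 := (hP.transfer φ ψ hφ hψ.injOn hends).1 hD
  have he' : e' ∈ ψ '' D := ⟨e, he, if_pos rfl⟩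
  have h3 := (hP.subdiv (Γ := big G) (f := .inl e) (g := g) (a := .inl a) (b := .inr 0)
    (w := .inl w) he' rfl (by
      rintro _ ⟨x, hx, rfl⟩ h
      rw [hends x hx, Sym2.mem_map] at h
      obtain ⟨y, -, hy⟩ := h
      simp only [φ] at hy
      split_ifs at hy with h1
      exact h1 (Sum.inl_injective hy)) (by simp [g]) (by simp [hab]) rfl).1 h2
  have h4 := (hP.big_iff.1 hD).eq_of_subset_isCircuit h3 (by
    rintro _ ⟨x, hx, rfl⟩
    by_cases hxe : x = e
    · rw [hxe]; exact mem_insert _ _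
    · refine mem_insert_of_mem _ (mem_insert_of_mem _ ⟨⟨x, hx, if_neg hxe⟩, ?_⟩)
      simp [e'])
  have h5 : g ∈ Sum.inl '' D := by
    rw [h4]; exact mem_insert_of_mem _ (mem_insert _ _)
  simp [g] at h5

/-- the loop lemma -/
lemma Hyp.loop (hP : Hyp P) {G : MultiGraph.{u}} {C : Set G.E} (hC : (hP.M G).IsCircuit C)
    {e l : G.E} {x : G.V} (he : e ∈ C) (hx : x ∈ G.ends e) (hl : G.ends l = s(x, x))
    (hlC : l ∉ C) : ∃ D, D ⊆ insert l (C \ {e}) ∧ l ∈ D ∧ (hP.M G).IsCircuit D := by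
  obtain ⟨y, hy⟩ := Sym2.mem_iff_exists.1 hx
  let f : (big G).E := .inr (s(.inl x, .inr 0), 0)
  let f' : (big G).E := .inr (s(.inl x, .inr 0), 1)
  let g : (big G).E := .inr (s(.inr 0, .inl y), 2)
  let R : Set (big G).E := (Sum.inl '' C) \ {.inl e}
  have hR : ∀ z ∈ R, ∃ c ∈ C, c ≠ e ∧ z = .inl c := by
    rintro _ ⟨⟨c, hc, rfl⟩, h⟩
    exact ⟨c, hc, fun h1 => h (by rw [h1]; rfl), rfl⟩
  have hw : ∀ z ∈ (Sum.inl '' C : Set (big G).E), (Sum.inr 0 : (big G).V) ∉ (big G).ends z := by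
    rintro _ ⟨c, -, rfl⟩
    exact inr_notMem _ _
  have h0 := hP.big_iff.1 hC
  have h1 : (hP.M (big G)).IsCircuit (insert f (insert g R)) :=
    (hP.subdiv (Γ := big G) (C := Sum.inl '' C) (e := .inl e) (f := f) (g := g) (a := .inl x)
      (b := .inl y) (w := .inr 0) ⟨e, he, rfl⟩ (by simp [hy]) hw (by simp [f, g]) rfl rfl).1 h0
  have h2 : (hP.M (big G)).IsCircuit (insert f' (insert g R)) :=
    (hP.subdiv (Γ := big G) (C := Sum.inl '' C) (e := .inl e) (f := f') (g := g) (a := .inl x)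
      (b := .inl y) (w := .inr 0) ⟨e, he, rfl⟩ (by simp [hy]) hw (by simp [f', g]) rfl rfl).1 h0
  have hfR : f ∉ R := fun h => by obtain ⟨c, -, -, h⟩ := hR f h; simp [f] at h
  have hfR' : f' ∉ R := fun h => by obtain ⟨c, -, -, h⟩ := hR f' h; simp [f'] at h
  have hne : insert f (insert g R) ≠ insert f' (insert g R) := by
    intro h
    have : f ∈ insert f' (insert g R) := h ▸ mem_insert _ _
    rcases this with h | h | h
    · simp [f, f'] at h
    · simp [f, g] at h
    · exact hfR h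
  obtain ⟨D, hD, hDc⟩ := h1.elimination h2 hne g
  have hD' : ∀ z ∈ D, z = f ∨ z = f' ∨ z ∈ R := by
    intro z hz
    obtain ⟨h3, h4⟩ := hD hz
    rcases h3 with (h | h | h) | (h | h | h)
    exacts [Or.inl h, absurd h h4, Or.inr (Or.inr h), Or.inr (Or.inl h), absurd h h4,
      Or.inr (Or.inr h)]
  have hgD : g ∉ D := fun h => (hD h).2 rfl
  have hfD : f ∈ D := by
    by_contra hc
    have := hDc.eq_of_subset_isCircuit h2 fun z hz => by
      rcases hD' z hz with h | h | h
      · exact absurd (h ▸ hz) hc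
      · exact Or.inl h
      · exact Or.inr (Or.inr h)
    exact hgD (this ▸ mem_insert_of_mem _ (mem_insert _ _))
  have hfD' : f' ∈ D := by
    by_contra hc
    have := hDc.eq_of_subset_isCircuit h1 fun z hz => by
      rcases hD' z hz with h | h | h
      · exact Or.inl h
      · exact absurd (h ▸ hz) hc
      · exact Or.inr (Or.inr h)
    exact hgD (this ▸ mem_insert_of_mem _ (mem_insert _ _))
  let D₀ : Set G.E := insert l (Sum.inl ⁻¹' D)
  have h5 := hP.subdiv (Γ := big G) (C := Sum.inl '' D₀) (e := .inl l) (f := f) (g := f')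
    (a := .inl x) (b := .inl x) (w := .inr 0) ⟨l, mem_insert _ _, rfl⟩ (by simp [hl])
    (by rintro _ ⟨c, -, rfl⟩; exact inr_notMem _ _) (by simp [f, f']) rfl Sym2.eq_swap
  have h6 : insert f (insert f' ((Sum.inl '' D₀ : Set (big G).E) \ {.inl l})) = D := by
    ext z
    constructor
    · rintro (rfl | rfl | ⟨⟨c, hc, rfl⟩, h⟩)
      · exact hfD
      · exact hfD'
      · rcases hc with rfl | hc
        · exact absurd rfl h
        · exact hc
    · intro hz
      rcases hD' z hz with h | h | h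
      · exact Or.inl h
      · exact Or.inr (Or.inl h)
      · obtain ⟨c, hc, -, rfl⟩ := hR z h
        refine Or.inr (Or.inr ⟨⟨c, Or.inr hz, rfl⟩, fun h => hlC ?_⟩)
        rw [← Sum.inl_injective h]; exact hc
  rw [h6] at h5
  refine ⟨D₀, ?_, mem_insert _ _, hP.big_iff.2 (h5.2 hDc)⟩
  rintro c (rfl | hc)
  · exact mem_insert _ _
  · rcases hD' _ hc with h | h | h
    · simp [f] at h
    · simp [f'] at h
    · obtain ⟨c', hc', hne, h⟩ := hR _ h
      rw [Sum.inl_injective h]
      exact Or.inr ⟨hc', hne⟩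

lemma Hyp.loops_equiv (hP : Hyp P) {G G' : MultiGraph.{u}} {D : Set G.E} {D' : Set G'.E}
    {z : G.V} {z' : G'.V} (h : ∀ e ∈ D, G.ends e = s(z, z)) (h' : ∀ e ∈ D', G'.ends e = s(z', z'))
    (σ : D ≃ D') (hD : (hP.M G).IsCircuit D) : (hP.M G').IsCircuit D' := by
  refine (hP.equiv (fun _ => z') σ ?_ ?_).1 hD
  · rintro x ⟨e, he, hx⟩ y ⟨e', he', hy⟩ -
    rw [h e he, Sym2.mem_iff, or_self] at hx
    rw [h e' he', Sym2.mem_iff, or_self] at hy
    rw [hx, hy]
  · intro e
    rw [h' _ (σ e).2, h _ e.2]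
    rfl

lemma Hyp.mem_closure (hP : Hyp P) {G : MultiGraph.{u}} {D X : Set G.E} {e : G.E}
    (hD : (hP.M G).IsCircuit D) (he : e ∈ D) (hX : ∀ x ∈ D, x ≠ e → x ∈ X) :
    e ∈ (hP.M G).closure X :=
  (hP.M G).closure_subset_closure (fun x hx => hX x hx.1 hx.2)
    (hD.mem_closure_sdiff_singleton_of_mem he)

/-- Some finite bouquet of loops is a circuit. -/
lemma Hyp.bouquet (hP : Hyp P) (hne : P.Nonempty) : ∃ k : ℕ, ∀ (G : MultiGraph.{u}) (z : G.V)
    (D : Finset G.E), D.card = k + 1 → (∀ e ∈ D, G.ends e = s(z, z)) →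
      (hP.M G).IsCircuit (D : Set G.E) := by
  classical
  obtain ⟨G, hG⟩ := hne
  have h0 := hP.big_iff.1 (hP.univ_circ hG)
  obtain ⟨e, he⟩ := h0.nonempty
  obtain ⟨x, hx⟩ : ∃ x, x ∈ (big G).ends e := ⟨_, Sym2.out_fst_mem _⟩
  let l : ℕ → (big G).E := fun n => .inr (s(x, x), n)
  have hl : Function.Injective l := fun a b h => by simpa [l] using h
  obtain ⟨D, hD, hlD, hDc⟩ := hP.loop h0 (l := l 0) he hx rfl (by simp [l])
  set M := hP.M (big G) with hM
  have hME : M.E = univ := hP.M_ground _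
  have hdep : ¬ M.Indep (range l) := by
    intro hI
    obtain ⟨B, hB, hlB⟩ := hI.subset_isBasis_of_subset (X := range l ∪ D) subset_union_left
      (by rw [hME]; exact subset_univ _)
    let ψ : (big G).E → (big G).E := Sum.map id fun p => (p.1, p.2 + 1)
    have hψ : Function.Injective ψ := by
      refine Function.Injective.sumMap Function.injective_id ?_
      rintro ⟨a, n⟩ ⟨b, m⟩ h
      simpa using h
    have hends : ∀ y, (big G).ends (ψ y) = ((big G).ends y).map id := by
      rintro (y | y) <;> simp [ψ]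
    have hfix : ∀ y ∈ D, y ≠ l 0 → ψ y = y := by
      intro y hy hy0
      rcases hD hy with h | ⟨⟨c, -, rfl⟩, -⟩
      · exact absurd h hy0
      · rfl
    have hBψ : ∀ y ∈ B, ψ y ∈ B \ {l 0} := by
      intro y hy
      by_cases h1 : y ∈ range l
      · obtain ⟨n, rfl⟩ := h1
        exact ⟨hlB ⟨n + 1, rfl⟩, fun h => by simp [ψ, l] at h⟩
      · have h2 : y ≠ l 0 := fun h => h1 ⟨0, h.symm⟩
        rw [hfix y ((hB.subset hy).resolve_left h1) h2]
        exact ⟨hy, h2⟩
    have hX : D \ {l 0} ⊆ M.closure (B \ {l 0}) := by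
      rintro y ⟨hy, hy0⟩
      by_cases hyB : y ∈ B
      · exact M.subset_closure _ (by rw [hME]; exact subset_univ _) ⟨hyB, hy0⟩
      have h1 := hB.indep.fundCircuit_isCircuit (hB.subset_closure (Or.inr hy)) hyB
      have h2 := (hP.transfer id ψ Function.injective_id hψ.injOn fun y _ => hends y).1 h1
      refine hP.mem_closure h2 ⟨y, M.mem_fundCircuit y B, hfix y hy hy0⟩ ?_
      rintro _ ⟨c, hc, rfl⟩ hcy
      rcases M.fundCircuit_subset_insert y B hc with h | h
      · exact absurd (by rw [h, hfix y hy hy0]) hcy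
      · exact hBψ c h
    have h3 : l 0 ∈ M.closure (B \ {l 0}) :=
      M.closure_subset_closure_of_subset_closure hX (hDc.mem_closure_sdiff_singleton_of_mem hlD)
    exact hB.indep.notMem_closure_sdiff_of_mem (hlB ⟨0, rfl⟩) h3
  obtain ⟨K, hK, hKc⟩ := (M.not_indep_iff (by rw [hME]; exact subset_univ _)).1 hdep
    |>.exists_isCircuit_subset
  have hKl : ∀ y ∈ K, (big G).ends y = s(x, x) := fun y hy => by
    obtain ⟨n, rfl⟩ := hK hy
    rfl
  obtain ⟨d, hd⟩ := hKc.nonempty
  have hfin : K.Finite := by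
    by_contra hinf
    have hinf : K.Infinite := hinf
    have hc : K.Countable := (countable_range l).mono hK
    have i1 : Infinite K := hinf.to_subtype
    have i2 : Infinite (K \ {d} : Set _) := (hinf.sdiff (finite_singleton d)).to_subtype
    have i3 : Countable K := hc.to_subtype
    have i4 : Countable (K \ {d} : Set _) := (hc.mono sdiff_subset).to_subtype
    obtain ⟨σ⟩ : Nonempty (K ≃ (K \ {d} : Set _)) := nonempty_equiv_of_countable
    have h4 := hP.loops_equiv hKl (fun y hy => hKl y hy.1) σ hKc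
    exact (hKc.sdiff_singleton_indep hd).not_dep h4.dep
  have hpos : 0 < hfin.toFinset.card := Finset.card_pos.2 ⟨d, hfin.mem_toFinset.2 hd⟩
  refine ⟨hfin.toFinset.card - 1, fun G' z D' hD' hz => ?_⟩
  have σ := Finset.equivOfCardEq (s := hfin.toFinset) (t := D') (by omega)
  refine hP.loops_equiv (D := (hfin.toFinset : Set _)) (fun y hy => hKl y (by simpa using hy))
    (fun y hy => hz y hy) σ ?_
  rwa [hfin.coe_toFinset]

end Pool.Agent.MP_221c76_co.Tm
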