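import Pool.Agent.MP_221c76_co.Defs

universe u

namespace Pool.Agent.MP_221c76_co

/-- `J` contains no finite cycle: a nonempty finite subset has fewer edges than vertices. -/
def IsForest (G : MultiGraph.{u}) (J : Set G.E) : Prop :=
  ∀ (A : Finset G.V) (W : Finset G.E), W.Nonempty → (∀ e ∈ W, e ∈ J ∧ ∀ x ∈ G.ends e, x ∈ A) →
    W.card < A.card

/-- Every component of `J` has at most one cycle: a finite subset has at most as many edges as
vertices. -/
def IsPseudoforest (G : MultiGraph.{u}) (J : Set G.E) : Prop :=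
  ∀ (A : Finset G.V) (W : Finset G.E), (∀ e ∈ W, e ∈ J ∧ ∀ x ∈ G.ends e, x ∈ A) →
    W.card ≤ A.card

/-- Every component of `J` has at most one cycle or end: for edges `W` inside a finite vertex set
`A` and `j` rays that start in `A`, have no other vertex in `A` and are disjoint outside `A`,
`|W| + j ≤ |A|`. -/
def IsEndPseudoforest (G : MultiGraph.{u}) (J : Set G.E) : Prop :=
  ∀ (A : Finset G.V) (W : Finset G.E) (j : ℕ) (p : Fin j → ℕ → G.V) (f : Fin j → ℕ → G.E),
    (∀ e ∈ W, e ∈ J ∧ ∀ x ∈ G.ends e, x ∈ A) →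
    (∀ i, p i 0 ∈ A) → (∀ i t, p i (t + 1) ∉ A) →
    (∀ i t i' t', p i (t + 1) = p i' (t' + 1) → i = i' ∧ t = t') →
    (∀ i t, f i t ∈ J ∧ G.ends (f i t) = s(p i t, p i (t + 1))) →
    W.card + j ≤ A.card

/-- The graphs without isolated vertices whose edge set is minimal with the property that `Q`
cannot be reached by deleting at most `r` edges. -/
def Series (Q : ∀ G : MultiGraph.{u}, Set G.E → Prop) (r : ℕ) : Set MultiGraph.{u} :=
  {G | G.NoIsolatedVertex ∧
    Minimal (fun I : Set G.E => ∀ F : Finset G.E, F.card ≤ r → ¬ Q G (I \ F)) Set.univ}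

end Pool.Agent.MP_221c76_co
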