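import Pool.Agent.MP_221c76_co.Tm.Fin

universe u

namespace Pool.Agent.MP_221c76_co.Tm

open MultiGraph Set

variable {P : Set MultiGraph.{u}}

lemma Hyp.sub (hP : Hyp P) {G : MultiGraph.{u}} (X : Set G.E) : X ⊆ (hP.M G).closure X :=
  (hP.M G).subset_closure X (by rw [hP.M_ground]; exact subset_univ _)

lemma Hyp.indep_iff (hP : Hyp P) {G : MultiGraph.{u}} {I : Set G.E} :
    (hP.M G).Indep I ↔ ∀ C ⊆ I, ¬ (hP.M G).IsCircuit C :=
  Matroid.indep_iff_forall_subset_not_isCircuit (by rw [hP.M_ground]; exact subset_univ _)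

lemma Hyp.emb_indep (hP : Hyp P) {Γ Γ' : MultiGraph.{u}} (φ : Γ.V → Γ'.V) (ψ : Γ.E → Γ'.E)
    (hφ : Function.Injective φ) (hψ : Function.Injective ψ)
    (h : ∀ e, Γ'.ends (ψ e) = (Γ.ends e).map φ) {I : Set Γ.E} :
    (hP.M Γ').Indep (ψ '' I) ↔ (hP.M Γ).Indep I := by
  rw [hP.indep_iff, hP.indep_iff]
  constructor
  · intro h1 C hC hc
    exact h1 _ (image_mono hC) ((hP.transfer φ ψ hφ hψ.injOn fun e _ => h e).1 hc)
  · intro h1 C hC hc
    obtain ⟨D, hD, rfl⟩ := subset_image_iff.1 hC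
    exact h1 D hD ((hP.transfer φ ψ hφ hψ.injOn fun e _ => h e).2 hc)

lemma Hyp.emb_closure (hP : Hyp P) {Γ Γ' : MultiGraph.{u}} (φ : Γ.V → Γ'.V) (ψ : Γ.E → Γ'.E)
    (hφ : Function.Injective φ) (hψ : Function.Injective ψ)
    (h : ∀ e, Γ'.ends (ψ e) = (Γ.ends e).map φ) {X : Set Γ.E} {e : Γ.E} :
    ψ e ∈ (hP.M Γ').closure (ψ '' X) ↔ e ∈ (hP.M Γ).closure X := by
  by_cases he : e ∈ X
  · exact iff_of_true (hP.sub _ (mem_image_of_mem _ he)) (hP.sub _ he)
  have he' : ψ e ∉ ψ '' X := fun h1 => he ((hψ.mem_set_image).1 h1)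
  rw [Matroid.mem_closure_iff_exists_isCircuit he, Matroid.mem_closure_iff_exists_isCircuit he']
  constructor
  · rintro ⟨C, hC, hc, heC⟩
    rw [← image_insert_eq] at hC
    obtain ⟨D, hD, rfl⟩ := subset_image_iff.1 hC
    exact ⟨D, hD, (hP.transfer φ ψ hφ hψ.injOn fun e _ => h e).2 hc, hψ.mem_set_image.1 heC⟩
  · rintro ⟨C, hC, hc, heC⟩
    refine ⟨ψ '' C, ?_, (hP.transfer φ ψ hφ hψ.injOn fun e _ => h e).1 hc, mem_image_of_mem _ heC⟩
    rw [← image_insert_eq]
    exact image_mono hC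

lemma Hyp.big_indep (hP : Hyp P) {G : MultiGraph.{u}} {I : Set G.E} :
    (hP.M (big G)).Indep (Sum.inl '' I) ↔ (hP.M G).Indep I :=
  hP.emb_indep (Γ' := big G) Sum.inl Sum.inl Sum.inl_injective Sum.inl_injective fun _ => rfl

lemma Hyp.big_closure (hP : Hyp P) {G : MultiGraph.{u}} {X : Set G.E} {e : G.E} :
    Sum.inl e ∈ (hP.M (big G)).closure (Sum.inl '' X) ↔ e ∈ (hP.M G).closure X :=
  hP.emb_closure (Γ' := big G) Sum.inl Sum.inl Sum.inl_injective Sum.inl_injective fun _ => rfl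

/-- `Z` consists of `k` loops at `z`. -/
structure Lp (G : MultiGraph.{u}) (k : ℕ) (z : G.V) (Z : Finset G.E) : Prop where
  card : Z.card = k
  loop : ∀ e ∈ Z, G.ends e = s(z, z)

/-- bouquets of `k + 1` loops are circuits -/
def Hyp.Bk (hP : Hyp P) (k : ℕ) : Prop := ∀ (G : MultiGraph.{u}) (z : G.V) (D : Finset G.E),
  D.card = k + 1 → (∀ e ∈ D, G.ends e = s(z, z)) → (hP.M G).IsCircuit (D : Set G.E)

lemma Lp.notMem {G : MultiGraph.{u}} {k : ℕ} {z : G.V} {Z : Finset G.E} (h : Lp G k z Z)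
    {e : G.E} (he : e ∈ Z) {v : G.V} (hv : v ≠ z) : v ∉ G.ends e := by
  rw [h.loop e he, Sym2.mem_iff, or_self]
  exact hv

/-- the image of the loops in the big graph -/
lemma Lp.big {G : MultiGraph.{u}} {k : ℕ} {z : G.V} {Z : Finset G.E} (h : Lp G k z Z) :
    Lp (big G) k (.inl z) (Z.map ⟨Sum.inl, Sum.inl_injective⟩) where
  card := by rw [Finset.card_map, h.card]
  loop e he := by
    obtain ⟨a, ha, rfl⟩ := Finset.mem_map.1 he
    change (G.ends a).map Sum.inl = _
    rw [h.loop a ha]; rfl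

/-- new loops at a vertex of the big graph -/
def newLoops (G : MultiGraph.{u}) (k : ℕ) (z : (big G).V) : Finset (big G).E :=
  (Finset.range k).map ⟨fun n => .inr (s(z, z), n), fun a b h => by simpa using h⟩

lemma mem_newLoops {G : MultiGraph.{u}} {k : ℕ} {z : (big G).V} {e : (big G).E} :
    e ∈ newLoops G k z ↔ ∃ n < k, e = .inr (s(z, z), n) := by
  simp only [newLoops, Finset.mem_map, Finset.mem_range]
  exact ⟨fun ⟨n, h, h'⟩ => ⟨n, h, h'.symm⟩, fun ⟨n, h, h'⟩ => ⟨n, h, h'.symm⟩⟩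

lemma lp_newLoops (G : MultiGraph.{u}) (k : ℕ) (z : (big G).V) :
    Lp (big G) k z (newLoops G k z) where
  card := by simp [newLoops]
  loop e he := by
    obtain ⟨n, -, rfl⟩ := mem_newLoops.1 he
    rfl

variable {hP : Hyp P} {k : ℕ}

lemma Hyp.Bk.insert (hk : hP.Bk k) {G : MultiGraph.{u}} {z : G.V} {Z : Finset G.E}
    (h : Lp G k z Z) {l : G.E} (hl : G.ends l = s(z, z)) (hlZ : l ∉ Z) :
    (hP.M G).IsCircuit (insert l (Z : Set G.E)) := by
  classical
  have := hk G z (Insert.insert l Z) (by rw [Finset.card_insert_of_notMem hlZ, h.card]) (by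
    intro y hy
    rcases Finset.mem_insert.1 hy with rfl | hy
    · exact hl
    · exact h.loop y hy)
  rwa [Finset.coe_insert] at this

lemma Hyp.Bk.loop_mem (hk : hP.Bk k) {G : MultiGraph.{u}} {z : G.V} {Z : Finset G.E}
    (h : Lp G k z Z) {l : G.E} (hl : G.ends l = s(z, z)) : l ∈ (hP.M G).closure Z := by
  by_cases hlZ : l ∈ Z
  · exact hP.sub _ hlZ
  · exact hP.mem_closure (hk.insert h hl hlZ) (mem_insert _ _) fun x hx hne =>
      hx.resolve_left hne

lemma Hyp.Bk.big_insert (hk : hP.Bk k) {G : MultiGraph.{u}} {z : G.V} {Z : Finset G.E}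
    (h : Lp G k z Z) : (hP.M (big G)).IsCircuit
      (Insert.insert (.inr (s(.inl z, .inl z), 0)) (Sum.inl '' (Z : Set G.E))) := by
  have := hk.insert h.big (l := .inr (s(.inl z, .inl z), 0)) rfl (by simp)
  rwa [Finset.coe_map] at this

lemma Hyp.Bk.indep (hk : hP.Bk k) {G : MultiGraph.{u}} {z : G.V} {Z : Finset G.E}
    (h : Lp G k z Z) : (hP.M G).Indep Z :=
  hP.big_indep.1 ((hk.big_insert h).ssubset_indep (ssubset_insert (by simp)))

lemma Hyp.Bk.digon (hk : hP.Bk k) {G : MultiGraph.{u}} {z : G.V} {Z : Finset G.E}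
    (h : Lp G k z Z) {g g' : G.E} {v : G.V} (hv : v ≠ z) (hg : G.ends g = s(z, v))
    (hg' : G.ends g' = s(z, v)) (hne : g ≠ g') :
    (hP.M G).IsCircuit (Insert.insert g (Insert.insert g' (Z : Set G.E))) := by
  have h1 := (hP.subdiv (Γ := big G) (e := .inr (s(.inl z, .inl z), 0)) (f := .inl g)
    (g := .inl g') (a := .inl z) (b := .inl z) (w := .inl v) (mem_insert _ _) rfl (by
      rintro y (rfl | ⟨y, hy, rfl⟩)
      · simpa using hv
      · intro h2
        obtain ⟨a, ha, h3⟩ := Sym2.mem_map.1 h2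
        exact h.notMem hy hv (Sum.inl_injective h3 ▸ ha)) (by simpa using hne) (by simp [hg])
      (by simp [hg'])).1 (hk.big_insert h)
  rw [insert_sdiff_self_of_notMem (by simp), ← image_insert_eq, ← image_insert_eq] at h1
  exact hP.big_iff.2 h1

/-- an edge lies in the closure of the loops at the apex and the edges to its ends -/
lemma Hyp.Bk.tri (hk : hP.Bk k) {G : MultiGraph.{u}} {z : G.V} {Z : Finset G.E}
    (h : Lp G k z Z) {e g₁ g₂ : G.E} {a b : G.V} (he : G.ends e = s(a, b))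
    (h₁ : G.ends g₁ = s(z, a)) (h₂ : G.ends g₂ = s(z, b)) :
    e ∈ (hP.M G).closure (Z ∪ {g₁, g₂}) := by
  have key : ∀ {e g : G.E} {v : G.V}, G.ends e = s(z, v) → G.ends g = s(z, v) →
      e ∈ (hP.M G).closure (Insert.insert g (Z : Set G.E)) := by
    intro e g v he hg
    by_cases hv : v = z
    · exact (hP.M G).closure_subset_closure (subset_insert _ _) (hk.loop_mem h (hv ▸ he))
    by_cases heg : e = g
    · exact hP.sub _ (Or.inl heg)
    · exact hP.mem_closure (hk.digon h hv he hg heg) (mem_insert _ _) fun x hx hne =>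
        hx.resolve_left hne
  by_cases ha : a = z
  · refine (hP.M G).closure_subset_closure ?_ (key (ha ▸ he) h₂)
    exact insert_subset (Or.inr (Or.inr rfl)) subset_union_left
  by_cases hb : b = z
  · refine (hP.M G).closure_subset_closure ?_ (key ((hb ▸ he).trans Sym2.eq_swap) h₁)
    exact insert_subset (Or.inr (Or.inl rfl)) subset_union_left
  let g' : (big G).E := .inr (s(.inl z, .inl a), 0)
  have hd := hk.digon h.big (g := .inl g₁) (g' := g') (v := .inl a) (by simpa using ha)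
    (by simp [h₁]) rfl (by simp [g'])
  rw [Finset.coe_map] at hd
  rw [← hP.big_closure]
  by_cases hab : a = b
  · subst hab
    obtain ⟨D, hD, heD, hDc⟩ := hP.loop hd (e := g') (l := .inl e) (x := .inl a)
      (mem_insert_of_mem _ (mem_insert _ _)) (by simp [g']) (by simp [he]) (by
        rintro (h3 | h3 | ⟨y, hy, h3⟩)
        · have h4 : z ∈ G.ends e := by
            rw [Sum.inl_injective h3, h₁]; exact Sym2.mem_mk_left _ _
          rw [he, Sym2.mem_iff, or_self] at h4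
          exact ha h4.symm
        · simp [g'] at h3
        · refine h.notMem hy ha ?_
          rw [Sum.inl_injective h3, he]; exact Sym2.mem_mk_left _ _)
    refine hP.mem_closure hDc heD fun y hy hne => ?_
    rcases hD hy with h3 | ⟨h3 | h3 | ⟨c, hc, h3⟩, h'⟩
    · exact absurd h3 hne
    · exact ⟨g₁, Or.inr (Or.inl rfl), h3.symm⟩
    · exact absurd h3 h'
    · exact ⟨c, Or.inl hc, h3⟩
  · have h3 := (hP.subdiv (Γ := big G) (e := g') (f := .inl g₂) (g := .inl e) (a := .inl z)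
      (b := .inl a) (w := .inl b) (mem_insert_of_mem _ (mem_insert _ _)) rfl (by
        rintro y (rfl | rfl | ⟨y, hy, rfl⟩)
        · simp [h₁, hb, Ne.symm hab]
        · simp [g', hb, Ne.symm hab]
        · intro h2
          obtain ⟨c, hc, h3⟩ := Sym2.mem_map.1 h2
          exact h.notMem hy hb (Sum.inl_injective h3 ▸ hc)) (by
        intro h3
        have h4 : z ∈ G.ends e := by
          rw [← Sum.inl_injective h3, h₂]; exact Sym2.mem_mk_left _ _
        rw [he, Sym2.mem_iff] at h4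
        rcases h4 with h4 | h4
        · exact ha h4.symm
        · exact hb h4.symm) (by simp [h₂]) (by simp [he])).1 hd
    refine hP.mem_closure h3 (mem_insert_of_mem _ (mem_insert _ _)) fun y hy hne => ?_
    rcases hy with h4 | h4 | ⟨h4 | h4 | ⟨c, hc, h4⟩, h'⟩
    · exact ⟨g₂, Or.inr (Or.inr rfl), h4.symm⟩
    · exact absurd h4 hne
    · exact ⟨g₁, Or.inr (Or.inl rfl), h4.symm⟩
    · exact absurd h4 h'
    · exact ⟨c, Or.inl hc, h4⟩

/-- enumeration of the loops -/
lemma Lp.enum {G : MultiGraph.{u}} {z : G.V} {Z : Finset G.E} (h : Lp G k z Z) :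
    ∃ ζ : Fin k → G.E, Function.Injective ζ ∧ range ζ = Z := by
  let σ := Z.equivFinOfCardEq h.card
  refine ⟨fun i => (σ.symm i).1, Subtype.val_injective.comp σ.symm.injective, ?_⟩
  ext e
  constructor
  · rintro ⟨i, rfl⟩
    exact (σ.symm i).2
  · intro he
    exact ⟨σ ⟨e, he⟩, by simp⟩

/-- `k` loops at one vertex and one loop at another vertex -/
abbrev std0 (k : ℕ) : MultiGraph.{u} where
  V := ULift.{u} Bool
  E := ULift.{u} (Option (Fin k))
  ends e := e.down.elim s(⟨true⟩, ⟨true⟩) fun _ => s(⟨false⟩, ⟨false⟩)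

/-- the graphic case -/
def Hyp.CaseG (hP : Hyp P) (k : ℕ) : Prop :=
  (⟨none⟩ : (std0.{u} k).E) ∈ (hP.M (std0 k)).closure (range fun i => ⟨some i⟩)

lemma Hyp.caseG_iff {G : MultiGraph.{u}} {z x : G.V} {Z : Finset G.E} (h : Lp G k z Z)
    {l : G.E} (hl : G.ends l = s(x, x)) (hx : x ≠ z) :
    l ∈ (hP.M G).closure Z ↔ hP.CaseG k := by
  obtain ⟨ζ, hζ, hr⟩ := h.enum
  have hζ' : ∀ i, ζ i ∈ Z := fun i => by
    rw [← Finset.mem_coe, ← hr]; exact mem_range_self i
  have hlZ : ∀ i, l ≠ ζ i := fun i h1 =>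
    h.notMem (hζ' i) hx (by rw [← h1, hl]; exact Sym2.mem_mk_left _ _)
  have := hP.emb_closure (Γ := std0 k) (Γ' := G) (fun v => cond v.down x z)
    (fun e => e.down.elim l ζ) (by
      rintro ⟨_ | _⟩ ⟨_ | _⟩ h1
      · rfl
      · exact absurd h1.symm hx
      · exact absurd h1 hx
      · rfl) (by
      rintro ⟨_ | i⟩ ⟨_ | i'⟩ h1
      · rfl
      · exact absurd h1 (hlZ _)
      · exact absurd h1.symm (hlZ _)
      · rw [hζ h1]) (by
      rintro ⟨_ | i⟩
      · exact hl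
      · exact h.loop _ (hζ' i)) (X := range fun i => ⟨some i⟩) (e := ⟨none⟩)
  rw [← range_comp] at this
  rw [← hr]
  exact this

lemma Hyp.Bk.caseG (hk : hP.Bk k) (hG : hP.CaseG k) {G : MultiGraph.{u}} {z x : G.V}
    {Z : Finset G.E} (h : Lp G k z Z) {l : G.E} (hl : G.ends l = s(x, x)) :
    l ∈ (hP.M G).closure Z := by
  by_cases hx : x = z
  · exact hk.loop_mem h (hx ▸ hl)
  · exact (Hyp.caseG_iff h hl hx).2 hG

lemma Hyp.Bk.pos (hk : hP.Bk k) (hG : ¬ hP.CaseG k) : 0 < k := by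
  rcases Nat.eq_zero_or_pos k with rfl | h
  · refine absurd ?_ hG
    have h1 := hk.loop_mem (G := std0 0) (z := ⟨true⟩) (Z := ∅) ⟨rfl, by simp⟩ (l := ⟨none⟩) rfl
    exact (hP.M _).closure_subset_closure (by simp) h1
  · exact h

/-- `k` loops at `z`, a ray avoiding `z` and an edge from `z` to the start of the ray -/
structure Lasso (G : MultiGraph.{u}) (k : ℕ) (z : G.V) (Z : Finset G.E) (p : ℕ → G.V)
    (f : ℕ → G.E) (s : G.E) : Prop where
  lp : Lp G k z Z
  inj : Function.Injective p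
  ne : ∀ t, p t ≠ z
  edge : ∀ t, G.ends (f t) = s(p t, p (t + 1))
  hs : G.ends s = s(z, p 0)

abbrev std1 (k : ℕ) : MultiGraph.{u} where
  V := ULift.{u} (Option ℕ)
  E := ULift.{u} (Option (Fin k ⊕ ℕ))
  ends e := e.down.elim s(⟨none⟩, ⟨some 0⟩)
    (Sum.elim (fun _ => s(⟨none⟩, ⟨none⟩)) fun t => s(⟨some t⟩, ⟨some (t + 1)⟩))

/-- rays count as cycles -/
def Hyp.RayDep (hP : Hyp P) (k : ℕ) : Prop :=
  (⟨none⟩ : (std1.{u} k).E) ∈ (hP.M (std1 k)).closure (range fun i => ⟨some i⟩)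

lemma ray_inj {G : MultiGraph.{u}} {p : ℕ → G.V} {f : ℕ → G.E} (hp : Function.Injective p)
    (h : ∀ t, G.ends (f t) = s(p t, p (t + 1))) : Function.Injective f := by
  intro a b hab
  have h1 := h a
  rw [hab, h b, Sym2.eq_iff, hp.eq_iff, hp.eq_iff, hp.eq_iff, hp.eq_iff] at h1
  omega

lemma Hyp.rayDep_iff {G : MultiGraph.{u}} {z : G.V} {Z : Finset G.E} {p : ℕ → G.V}
    {f : ℕ → G.E} {s : G.E} (h : Lasso G k z Z p f s) :
    s ∈ (hP.M G).closure (Z ∪ range f) ↔ hP.RayDep k := by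
  obtain ⟨ζ, hζ, hr⟩ := h.lp.enum
  have hζ' : ∀ i, ζ i ∈ Z := fun i => by
    rw [← Finset.mem_coe, ← hr]; exact mem_range_self i
  have h1 : ∀ i, s ≠ ζ i := fun i h1 =>
    h.lp.notMem (hζ' i) (h.ne 0) (by rw [← h1, h.hs]; exact Sym2.mem_mk_right _ _)
  have h2 : ∀ i t, f t ≠ ζ i := fun i t h1 =>
    h.lp.notMem (hζ' i) (h.ne t) (by rw [← h1, h.edge]; exact Sym2.mem_mk_left _ _)
  have h3 : ∀ t, s ≠ f t := fun t h1 => by
    have h4 : z ∈ G.ends (f t) := by rw [← h1, h.hs]; exact Sym2.mem_mk_left _ _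
    rw [h.edge, Sym2.mem_iff] at h4
    rcases h4 with h4 | h4 <;> exact h.ne _ h4.symm
  have := hP.emb_closure (Γ := std1 k) (Γ' := G) (fun v => v.down.elim z p)
    (fun e => e.down.elim s (Sum.elim ζ f)) (by
      rintro ⟨_ | a⟩ ⟨_ | b⟩ h1
      · rfl
      · exact absurd h1.symm (h.ne _)
      · exact absurd h1 (h.ne _)
      · rw [h.inj h1]) (by
      rintro ⟨_ | i | t⟩ ⟨_ | i' | t'⟩ h4
      · rfl
      · exact absurd h4 (h1 _)
      · exact absurd h4 (h3 _)
      · exact absurd h4.symm (h1 _)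
      · rw [hζ h4]
      · exact absurd h4.symm (h2 _ _)
      · exact absurd h4.symm (h3 _)
      · exact absurd h4 (h2 _ _)
      · rw [ray_inj h.inj h.edge h4]) (by
      rintro ⟨_ | i | t⟩
      · exact h.hs
      · exact h.lp.loop _ (hζ' i)
      · exact h.edge t) (X := range fun i => ⟨some i⟩) (e := ⟨none⟩)
  rw [← range_comp] at this
  rw [← hr, ← Sum.elim_range]
  exact this

lemma Hyp.tails (hP : Hyp P) {G : MultiGraph.{u}} {D : Set G.E} (hD : (hP.M G).IsCircuit D)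
    {p : ℕ → G.V} {f : ℕ → G.E} (hp : ∀ t, p (t + 1 + 1) ≠ p (t + 1))
    (h : ∀ t, G.ends (f (t + 1)) = s(p (t + 1), p (t + 1 + 1))) (h0 : f 0 ∉ D)
    (h1 : ∀ t, ∀ e ∈ D, p (t + 1) ∈ G.ends e → e = f t ∨ e = f (t + 1)) (t : ℕ) : f t ∉ D := by
  induction t with
  | zero => exact h0
  | succ t ih =>
    intro ht
    obtain ⟨e, he, hne, hv⟩ := hP.no_leaf hD ht ((h t).trans Sym2.eq_swap) (hp t)
    exact ih ((h1 t e he hv).resolve_right hne ▸ he)

/-- the Bean graph argument -/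
lemma Hyp.Bk.bean (hk : hP.Bk k) (hG : hP.CaseG k) : ¬ hP.RayDep k := by
  intro hR
  let G := std0.{u} 0
  let z : (big G).V := .inr 0
  let p : ℕ → (big G).V := fun t => .inr (t + 1)
  let f : ℕ → (big G).E := fun t => .inr (s(p t, p (t + 1)), 0)
  let s : (big G).E := .inr (s(z, p 0), 0)
  let g : ℕ → (big G).E := fun t => .inr (s(p 0, p t), 1)
  have hZ := lp_newLoops G k z
  have hL : Lasso (big G) k z (newLoops G k z) p f s :=
    ⟨hZ, fun a b h => by simpa [p] using h, fun t => by simp [p, z], fun t => rfl, rfl⟩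
  have h1 := (Hyp.rayDep_iff hL).2 hR
  set X : Set (big G).E := newLoops G k z ∪ range fun t => g (t + 1) with hX
  have hcl : (hP.M (big G)).closure (newLoops G k z) ⊆ (hP.M (big G)).closure X :=
    (hP.M _).closure_subset_closure subset_union_left
  have hg : ∀ t, g t ∈ (hP.M (big G)).closure X := by
    rintro (_ | t)
    · exact hcl (hk.caseG hG hZ (x := p 0) rfl)
    · exact hP.sub _ (Or.inr ⟨t, rfl⟩)
  have h2 : s ∈ (hP.M (big G)).closure X := by
    refine (hP.M _).closure_subset_closure_of_subset_closure (union_subset ?_ ?_) h1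
    · exact (hP.sub _).trans hcl
    · rintro _ ⟨t, rfl⟩
      refine (hP.M _).closure_subset_closure_of_subset_closure (union_subset ?_ ?_)
        (hk.tri (lp_newLoops G k (p 0)) (e := f t) (g₁ := g t) (g₂ := g (t + 1)) rfl rfl rfl)
      · intro y hy
        exact hcl (hk.caseG hG hZ ((lp_newLoops G k (p 0)).loop y hy))
      · rintro y (rfl | rfl)
        · exact hg _
        · exact hg _
  have hs : s ∉ X := by
    rintro (h | ⟨t, h⟩)
    · exact hZ.notMem h (hL.ne 0) (Sym2.mem_mk_right _ _)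
    · simp [g, s] at h
  obtain ⟨D, hD, hDc, hsD⟩ := (Matroid.mem_closure_iff_exists_isCircuit hs).1 h2
  obtain ⟨e, he, hne, hv⟩ := hP.no_leaf hDc hsD (a := z) (w := p 0) rfl (hL.ne 0).symm
  rcases hD he with h | h | ⟨t, rfl⟩
  · exact hne h
  · exact hZ.notMem h (hL.ne 0) hv
  · obtain ⟨e', he', hne', hv'⟩ := hP.no_leaf hDc he (a := p 0) (w := p (t + 1)) rfl (by simp [p])
    rcases hD he' with rfl | h | ⟨t', rfl⟩
    · simp [s, p, z] at hv'
    · exact hZ.notMem h (hL.ne _) hv'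
    · have : t = t' := by simpa [g, p] using hv'
      exact hne' (by rw [this])

end Pool.Agent.MP_221c76_co.Tm
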