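import Pool.Agent.MP_221c76_co.Tm.Cl1
import Pool.Agent.MP_221c76_co.Tm.CDefs

universe u

namespace Pool.Agent.MP_221c76_co.Tm

open MultiGraph Set

variable {P : Set MultiGraph.{u}} {hP : Hyp P} {k : ℕ}

/-- rays that start in `A` and are disjoint outside `A` -/
structure RaysIn (G : MultiGraph.{u}) (A : Finset G.V) (j : ℕ) (p : Fin j → ℕ → G.V)
    (f : Fin j → ℕ → G.E) : Prop where
  start : ∀ i, p i 0 ∈ A
  out : ∀ i t, p i (t + 1) ∉ A
  inj : ∀ i t i' t', p i (t + 1) = p i' (t' + 1) → i = i' ∧ t = t'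
  edge : ∀ i t, G.ends (f i t) = s(p i t, p i (t + 1))

/-- an edge set consisting of a finite core and rays -/
structure CoreIn (G : MultiGraph.{u}) (D : Set G.E) (A : Finset G.V) (W : Finset G.E) (j : ℕ)
    (p : Fin j → ℕ → G.V) (f : Fin j → ℕ → G.E) : Prop extends RaysIn G A j p f where
  inside : ∀ e ∈ W, ∀ x ∈ G.ends e, x ∈ A
  mem : ∀ e, e ∈ D ↔ e ∈ W ∨ ∃ i t, e = f i t
  used : ∀ x ∈ A, ∃ e ∈ D, x ∈ G.ends e

namespace RaysIn

variable {G : MultiGraph.{u}} {A : Finset G.V} {j : ℕ} {p : Fin j → ℕ → G.V}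
  {f : Fin j → ℕ → G.E}

lemma pinj (R : RaysIn G A j p f) (i : Fin j) : Function.Injective (p i) := by
  rintro (_ | a) (_ | b) h
  · rfl
  · exact absurd (h ▸ R.start i) (R.out i b)
  · exact absurd (h ▸ R.start i) (R.out i a)
  · rw [(R.inj _ _ _ _ h).2]

lemma far (R : RaysIn G A j p f) (i : Fin j) (t : ℕ) : p i (t + 1) ∈ G.ends (f i t) := by
  rw [R.edge]; exact Sym2.mem_mk_right _ _

/-- the ray edges at an inner vertex of a ray -/
lemma at_vertex (R : RaysIn G A j p f) {i i' : Fin j} {t t' : ℕ}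
    (h : p i (t + 1) ∈ G.ends (f i' t')) : i = i' ∧ (t' = t ∨ t' = t + 1) := by
  rw [R.edge, Sym2.mem_iff] at h
  rcases h with h | h
  · cases t' with
    | zero => exact absurd (h ▸ R.start i') (R.out i t)
    | succ t' =>
      obtain ⟨h1, h2⟩ := R.inj _ _ _ _ h
      exact ⟨h1, Or.inr (by rw [h2])⟩
  · obtain ⟨h1, h2⟩ := R.inj _ _ _ _ h
    exact ⟨h1, Or.inl h2.symm⟩

lemma finj (R : RaysIn G A j p f) {i i' : Fin j} {t t' : ℕ} (h : f i t = f i' t') :
    i = i' ∧ t = t' := by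
  have h1 := R.at_vertex (h ▸ R.far i t)
  have h2 := R.at_vertex (h.symm ▸ R.far i' t')
  exact ⟨h1.1, by omega⟩

lemma tail_out (R : RaysIn G A j p f) {i : Fin j} {t : ℕ} {x : G.V}
    (h : x ∈ G.ends (f i (t + 1))) : x ∉ A := by
  rw [R.edge, Sym2.mem_iff] at h
  rcases h with rfl | rfl <;> exact R.out _ _

lemma card (R : RaysIn G A j p f) [DecidableEq G.E] {W : Finset G.E}
    (hW : ∀ e ∈ W, ∀ x ∈ G.ends e, x ∈ A) :
    (W ∪ Finset.univ.image fun i => f i 0).card = W.card + j := by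
  rw [Finset.card_union_of_disjoint, Finset.card_image_of_injective _
    fun i i' h => (R.finj h).1, Finset.card_univ, Fintype.card_fin]
  rw [Finset.disjoint_left]
  intro e he h
  obtain ⟨i, -, rfl⟩ := Finset.mem_image.1 h
  exact R.out i 0 (hW _ he _ (R.far i 0))

end RaysIn

lemma Hyp.core_in (hP : Hyp P) {G : MultiGraph.{u}} {D : Set G.E}
    (hD : (hP.M G).IsCircuit D) : ∃ A W j p f, CoreIn G D A W j p f := by
  classical
  have hH := hP.M_circ.1 hD
  obtain ⟨A, j, p, f, R⟩ := hP.hasCore hH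
  obtain ⟨k, hk⟩ := hP.ineq
  have h0 : {e | ∀ x ∈ (span G D).toGraph.ends e, x ∈ A}.Finite := by
    by_contra h
    obtain ⟨W, h1, h2⟩ := Set.Infinite.exists_subset_card_eq h (A.card + k + 1)
    have := hk _ hH A W ∅ (fun _ => ∅) (fun e he => h1 he) (by simp) (by simp) (by simp) (by simp)
    omega
  have hA : ∀ x : (span G D).toGraph.V, x.1 ∈ A.image Subtype.val ↔ x ∈ A := fun x => by
    refine Finset.mem_image.trans ?_
    exact ⟨fun ⟨y, hy, h⟩ => (show y = x from Subtype.ext h) ▸ hy, fun h => ⟨x, h, rfl⟩⟩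
  refine ⟨A.image Subtype.val, h0.toFinset.image Subtype.val, j, fun i t => (p i t).1,
    fun i t => (f i t).1, ⟨fun i => (hA _).2 (R.start i), fun i t h => R.out i t ((hA _).1 h),
      fun i t i' t' h => R.inj i t i' t' (Subtype.ext h), fun i t => ?_⟩, ?_, ?_, ?_⟩
  · exact (toGraph_ends _ (f i t)).symm.trans (congrArg (Sym2.map Subtype.val) (R.edge i t))
  · intro e he x hx
    obtain ⟨e', he', rfl⟩ := Finset.mem_image.1 he
    exact (hA ⟨x, e'.1, e'.2, hx⟩).2
      (h0.mem_toFinset.1 he' _ ((mem_toGraph_ends (span G D) e' ⟨x, e'.1, e'.2, hx⟩).2 hx))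
  · intro e
    constructor
    · intro he
      rcases R.ecov ⟨e, he⟩ with h | ⟨i, t, h⟩
      · exact Or.inl (Finset.mem_image.2 ⟨⟨e, he⟩, h0.mem_toFinset.2 h, rfl⟩)
      · exact Or.inr ⟨i, t, congrArg Subtype.val h⟩
    · rintro (h | ⟨i, t, rfl⟩)
      · obtain ⟨e', -, rfl⟩ := Finset.mem_image.1 h
        exact e'.2
      · exact (f i t).2
  · intro x hx
    obtain ⟨y, -, rfl⟩ := Finset.mem_image.1 hx
    exact y.2

/-- the edge from the apex `inr n` to an old vertex -/
def sv (G : MultiGraph.{u}) (n : ℕ) (v : G.V) : (big G).E := .inr (s(.inr n, .inl v), 0)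

lemma sv_ends (G : MultiGraph.{u}) (n : ℕ) (v : G.V) :
    (big G).ends (sv G n v) = s(.inr n, .inl v) := rfl

lemma sv_inj (G : MultiGraph.{u}) (n : ℕ) : Function.Injective (sv G n) := fun a b h => by
  simpa [sv] using h

lemma mem_sv {G : MultiGraph.{u}} {n : ℕ} {v w : G.V}
    (h : (Sum.inl v : (big G).V) ∈ (big G).ends (sv G n w)) : v = w := by
  simpa [sv] using h

lemma mem_inl {G : MultiGraph.{u}} {v : G.V} {e : G.E} :
    (Sum.inl v : (big G).V) ∈ (big G).ends (.inl e) ↔ v ∈ G.ends e := by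
  refine Sym2.mem_map.trans ⟨fun ⟨a, ha, h⟩ => Sum.inl_injective h ▸ ha, fun h => ⟨v, h, rfl⟩⟩

lemma exists_ends {G : MultiGraph.{u}} (e : G.E) : ∃ a b, G.ends e = s(a, b) := by
  induction G.ends e using Sym2.ind with
  | _ a b => exact ⟨a, b, rfl⟩

lemma Hyp.Bk.star (hk : hP.Bk k) {G : MultiGraph.{u}} (n : ℕ) (e : G.E) {X : Set (big G).E}
    (hZ : (newLoops G k (.inr n) : Set (big G).E) ⊆ X) (h : ∀ x ∈ G.ends e, sv G n x ∈ X) :
    Sum.inl e ∈ (hP.M (big G)).closure X := by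
  obtain ⟨a, b, hab⟩ := exists_ends e
  refine (hP.M _).closure_subset_closure (union_subset hZ ?_)
    (hk.tri (lp_newLoops G k (.inr n)) (e := .inl e) (g₁ := sv G n a) (g₂ := sv G n b)
      (a := .inl a) (b := .inl b) (by simp [hab]) rfl rfl)
  rintro y (rfl | rfl)
  · exact h a (by simp [hab])
  · exact h b (by simp [hab])

/-- a member with a ray makes lassos dependent -/
lemma Hyp.Bk.rayDep (hk : hP.Bk k) {G : MultiGraph.{u}} {D : Set G.E} {A : Finset G.V}
    {W : Finset G.E} {j : ℕ} {p : Fin j → ℕ → G.V} {f : Fin j → ℕ → G.E}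
    (hD : (hP.M G).IsCircuit D) (R : CoreIn G D A W j p f) (i : Fin j) : hP.RayDep k := by
  have hZ := lp_newLoops G k (.inr 0)
  have hL : Lasso (big G) k (.inr 0) (newLoops G k (.inr 0)) (fun t => .inl (p i t))
      (fun t => .inl (f i t)) (sv G 0 (p i 0)) :=
    ⟨hZ, fun a b h => R.pinj i (Sum.inl_injective h), fun t => by simp,
      fun t => by simp [R.edge], rfl⟩
  rw [← Hyp.rayDep_iff hL]
  let X : Set (big G).E := newLoops G k (.inr 0) ∪ (range (fun t => Sum.inl (f i (t + 1))) ∪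
    sv G 0 '' {v | ∀ t, v ≠ p i (t + 1)})
  have h1 : Sum.inl (f i 0) ∈ (hP.M (big G)).closure X := by
    refine (hP.M _).closure_subset_closure_of_subset_closure ?_
      ((hP.big_iff.1 hD).mem_closure_sdiff_singleton_of_mem
        ⟨f i 0, (R.mem _).2 (Or.inr ⟨i, 0, rfl⟩), rfl⟩)
    rintro _ ⟨⟨e, he, rfl⟩, hne⟩
    by_cases h : ∃ t, e = f i t
    · obtain ⟨_ | t, rfl⟩ := h
      · exact absurd rfl hne
      · exact hP.sub _ (Or.inr (Or.inl ⟨t, rfl⟩))
    · refine hk.star 0 e subset_union_left fun x hx => Or.inr (Or.inr ⟨x, ?_, rfl⟩)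
      rintro t rfl
      rcases (R.mem e).1 he with h2 | ⟨i', t', rfl⟩
      · exact R.out i t (R.inside e h2 _ hx)
      · exact h ⟨t', by rw [(R.at_vertex hx).1]⟩
  have h2 : Sum.inl (f i 0) ∉ X := by
    rintro (h | ⟨t, h⟩ | ⟨v, -, h⟩)
    · obtain ⟨n, -, h⟩ := mem_newLoops.1 h
      cases h
    · have := (R.finj (Sum.inl_injective h)).2
      omega
    · cases h
  obtain ⟨D', hD', hDc, heD⟩ := (Matroid.mem_closure_iff_exists_isCircuit h2).1 h1
  have hray : ∀ t, ∀ v, v ∈ G.ends (f i t) → (∀ t, v ≠ p i (t + 1)) → v = p i 0 := by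
    intro t v hv h
    rw [R.edge, Sym2.mem_iff] at hv
    rcases hv with rfl | rfl
    · cases t with
      | zero => rfl
      | succ t => exact absurd rfl (h t)
    · exact absurd rfl (h t)
  have h3 : ∀ v, sv G 0 v ∈ D' → (∀ t, v ≠ p i (t + 1)) → v = p i 0 := by
    intro v hv h
    obtain ⟨e, he, hne, hx⟩ := hP.no_leaf hDc hv (sv_ends G 0 v) (by simp)
    rcases hD' he with rfl | h4 | ⟨t, rfl⟩ | ⟨w, -, rfl⟩
    · exact hray 0 v (mem_inl.1 hx) h
    · exact absurd hx (hZ.notMem h4 (by simp))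
    · exact hray _ v (mem_inl.1 hx) h
    · exact absurd (by rw [mem_sv hx]) hne
  have h4 : sv G 0 (p i 0) ∈ D' := by
    obtain ⟨e, he, hne, hx⟩ := hP.no_leaf hDc heD (a := .inl (p i 1)) (w := .inl (p i 0))
      (by simp [R.edge]) (fun h => R.out i 0 (Sum.inl_injective h ▸ R.start i))
    rcases hD' he with rfl | h4 | ⟨t, rfl⟩ | ⟨w, -, rfl⟩
    · exact absurd rfl hne
    · exact absurd hx (hZ.notMem h4 (by simp))
    · exact absurd (R.start i) (R.tail_out (mem_inl.1 hx))
    · rw [mem_sv hx]; exact he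
  refine hP.mem_closure hDc h4 fun y hy hne => ?_
  rcases hD' hy with rfl | h | ⟨t, rfl⟩ | ⟨w, hw, rfl⟩
  · exact Or.inr ⟨0, rfl⟩
  · exact Or.inl h
  · exact Or.inr ⟨t + 1, rfl⟩
  · exact absurd (by rw [h3 w hy hw]) hne

/-- loops at a vertex of a circuit are spanned by it -/
lemma Hyp.loop_closure (hP : Hyp P) {G : MultiGraph.{u}} {D : Set G.E}
    (hD : (hP.M G).IsCircuit D) {e l : G.E} {x : G.V} (he : e ∈ D) (hx : x ∈ G.ends e)
    (hl : G.ends l = s(x, x)) : l ∈ (hP.M G).closure D := by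
  by_cases hlD : l ∈ D
  · exact hP.sub _ hlD
  obtain ⟨D', h1, h2, h3⟩ := hP.loop hD he hx hl hlD
  exact hP.mem_closure h3 h2 fun y hy hne => ((h1 hy).resolve_left hne).1

/-- the loops at the apex are spanned by a circuit and one of them -/
lemma Hyp.Bk.apex_closure (hk : hP.Bk k) (hG : ¬ hP.CaseG k) {G : MultiGraph.{u}} {D : Set G.E}
    (hD : (hP.M G).IsCircuit D) {l l' : (big G).E} {n : ℕ}
    (hl : (big G).ends l = s(.inr n, .inr n)) (hl' : (big G).ends l' = s(.inr n, .inr n)) :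
    l' ∈ (hP.M (big G)).closure (Insert.insert l (Sum.inl '' D)) := by
  obtain ⟨e, he⟩ := hD.nonempty
  obtain ⟨x, y, hxy⟩ := exists_ends e
  have hZ := lp_newLoops G k (.inl x)
  have h1 : (newLoops G k (.inl x) : Set (big G).E) ⊆ (hP.M (big G)).closure (Sum.inl '' D) :=
    fun c hc => hP.loop_closure (hP.big_iff.1 hD) ⟨e, he, rfl⟩ (mem_inl.2 (by simp [hxy]))
      (hZ.loop c hc)
  have h2 : ∀ c : (big G).E, (big G).ends c = s(.inr n, .inr n) →
      c ∈ (hP.M (big G)).closure (Insert.insert (sv G n x) (newLoops G k (.inl x))) := by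
    intro c hc
    have := hk.tri hZ (g₁ := sv G n x) (g₂ := sv G n x) hc Sym2.eq_swap Sym2.eq_swap
    rwa [pair_eq_singleton, union_singleton] at this
  have h3 := Matroid.mem_closure_insert
    (fun h => hG ((Hyp.caseG_iff hZ hl (by simp)).1 h)) (h2 l hl)
  have h4 : Insert.insert l (newLoops G k (.inl x) : Set (big G).E) ⊆
      (hP.M (big G)).closure (Insert.insert l (Sum.inl '' D)) :=
    insert_subset (hP.sub _ (mem_insert _ _))
      (h1.trans ((hP.M _).closure_subset_closure (subset_insert _ _)))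
  refine (hP.M _).closure_subset_closure_of_subset_closure (insert_subset ?_ ?_) (h2 l' hl')
  · exact (hP.M _).closure_subset_closure_of_subset_closure h4 h3
  · exact (subset_insert _ _).trans h4

/-- circuits are dense in the bicircular cases -/
lemma Hyp.Bk.lower (hk : hP.Bk k) (hG : ¬ hP.CaseG k) {G : MultiGraph.{u}} {D : Set G.E}
    {A : Finset G.V} {W : Finset G.E} {j : ℕ} {p : Fin j → ℕ → G.V} {f : Fin j → ℕ → G.E}
    (hD : (hP.M G).IsCircuit D) (R : CoreIn G D A W j p f) : A.card + k ≤ W.card + j := by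
  classical
  have hZ := lp_newLoops G k (.inr 0)
  let l : (big G).E := .inr (s(.inr 0, .inr 0), 0)
  let Y₀ : Finset G.E := W ∪ Finset.univ.image fun i => f i 0
  have hY₀ : Y₀.card = W.card + j := R.card R.inside
  obtain ⟨e, heD, he⟩ : ∃ e ∈ D, e ∈ Y₀ := by
    obtain ⟨e, he⟩ := hD.nonempty
    rcases (R.mem e).1 he with h | ⟨i, t, -⟩
    · exact ⟨e, he, Finset.mem_union_left _ h⟩
    · exact ⟨f i 0, (R.mem _).2 (Or.inr ⟨i, 0, rfl⟩),
        Finset.mem_union_right _ (Finset.mem_image_of_mem _ (Finset.mem_univ i))⟩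
  let U : Set (big G).E := {y | ∃ i t, y = .inl (f i (t + 1))}
  let Y : Set (big G).E := newLoops G k (.inr 0) ∪ sv G 0 '' A
  let F : Set (big G).E := Insert.insert l (Sum.inl '' (Y₀.erase e : Finset G.E))
  have hsv : ∀ v, sv G 0 v ∉ newLoops G k (.inr 0) := fun v h =>
    hZ.notMem h (v := .inl v) (by simp) (by rw [sv_ends]; exact Sym2.mem_mk_right _ _)
  have hI : (hP.M (big G)).Indep (Y ∪ U) := by
    rw [hP.indep_iff]
    intro C hC hc
    have h1 : ∀ i t, Sum.inl (f i t) ∉ C := by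
      intro i
      refine hP.tails hc (p := fun t => .inl (p i t)) (f := fun t => .inl (f i t)) ?_ ?_ ?_ ?_
      · intro t h
        have := R.pinj i (Sum.inl_injective h)
        omega
      · intro t
        simp [R.edge]
      · intro h
        rcases hC h with (h | ⟨v, -, h⟩) | ⟨i', t', h⟩
        · obtain ⟨n, -, h⟩ := mem_newLoops.1 h
          cases h
        · cases h
        · have := (R.finj (Sum.inl_injective h)).2
          omega
      · intro t y hy hv
        rcases hC hy with (h | ⟨v, hvA, rfl⟩) | ⟨i', t', rfl⟩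
        · exact absurd hv (hZ.notMem h (by simp))
        · exact absurd (mem_sv hv ▸ hvA) (R.out i t)
        · obtain ⟨rfl, h | h⟩ := R.at_vertex (mem_inl.1 hv)
          · exact Or.inl (by rw [h])
          · exact Or.inr (by rw [h])
    refine hc.not_indep ((hk.indep hZ).subset fun y hy => ?_)
    rcases hC hy with (h | ⟨v, -, rfl⟩) | ⟨i, t, rfl⟩
    · exact h
    · obtain ⟨y', hy', hne, hv⟩ := hP.no_leaf hc hy (sv_ends G 0 v) (by simp)
      rcases hC hy' with (h | ⟨w, -, rfl⟩) | ⟨i, t, rfl⟩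
      · exact absurd hv (hZ.notMem h (by simp))
      · exact absurd (by rw [mem_sv hv]) hne
      · exact absurd hy' (h1 _ _)
    · exact absurd hy (h1 _ _)
  have hd : Disjoint Y U := by
    rw [Set.disjoint_left]
    rintro y (h | ⟨v, -, rfl⟩) ⟨i, t, h'⟩
    · obtain ⟨n, -, rfl⟩ := mem_newLoops.1 h
      cases h'
    · cases h'
  have hDcl : (Sum.inl '' D : Set (big G).E) ⊆ (hP.M (big G)).closure (F ∪ U) := by
    refine ((hP.big_iff.1 hD).subset_closure_sdiff_singleton (.inl e)).trans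
      ((hP.M _).closure_subset_closure ?_)
    rintro _ ⟨⟨c, hc, rfl⟩, hne⟩
    have hce : c ≠ e := fun h => hne (by rw [h]; rfl)
    rcases (R.mem c).1 hc with h | ⟨i, _ | t, rfl⟩
    · exact Or.inl (Or.inr ⟨c, Finset.mem_erase.2 ⟨hce, Finset.mem_union_left _ h⟩, rfl⟩)
    · exact Or.inl (Or.inr ⟨_, Finset.mem_erase.2 ⟨hce, Finset.mem_union_right _
        (Finset.mem_image_of_mem _ (Finset.mem_univ i))⟩, rfl⟩)
    · exact Or.inr ⟨i, t, rfl⟩
  have hZcl : (newLoops G k (.inr 0) : Set (big G).E) ⊆ (hP.M (big G)).closure (F ∪ U) :=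
    fun c hc => (hP.M _).closure_subset_closure_of_subset_closure
      (insert_subset (hP.sub _ (Or.inl (mem_insert _ _))) hDcl)
      (hk.apex_closure hG hD (l := l) rfl (hZ.loop c hc))
  have h1 := count_closure hI hd (F := F) (union_subset hZcl (by
    rintro _ ⟨v, hv, rfl⟩
    obtain ⟨c, hc, hvc⟩ := R.used v hv
    let lv : (big G).E := .inr (s(.inl v, .inl v), 0)
    have h2 := hk.tri hZ (e := lv) (g₁ := sv G 0 v) (g₂ := sv G 0 v) rfl rfl rfl
    rw [pair_eq_singleton, union_singleton] at h2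
    have h3 := Matroid.mem_closure_insert
      (fun h => hG ((Hyp.caseG_iff hZ (l := lv) rfl (by simp)).1 h)) h2
    refine (hP.M _).closure_subset_closure_of_subset_closure (insert_subset ?_ hZcl) h3
    exact (hP.M _).closure_subset_closure_of_subset_closure hDcl
      (hP.loop_closure (hP.big_iff.1 hD) ⟨c, hc, rfl⟩ (mem_inl.2 hvc) rfl)))
  have h2 : Y.encard = (k : ℕ∞) + A.card := by
    rw [encard_union_eq, encard_coe_eq_coe_finsetCard, hZ.card, (sv_inj G 0).encard_image,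
      encard_coe_eq_coe_finsetCard]
    rw [Set.disjoint_right]
    rintro _ ⟨v, -, rfl⟩
    exact hsv v
  have h3 : F.encard ≤ ((Y₀.card - 1 : ℕ) : ℕ∞) + 1 := by
    refine (encard_insert_le _ _).trans ?_
    rw [Sum.inl_injective.encard_image, encard_coe_eq_coe_finsetCard, Finset.card_erase_of_mem he]
  rw [h2] at h1
  have h4 : k + A.card ≤ Y₀.card - 1 + 1 := by exact_mod_cast h1.trans h3
  have h5 : 0 < Y₀.card := Finset.card_pos.2 ⟨e, he⟩
  omega

end Pool.Agent.MP_221c76_co.Tm
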