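import Pool.Agent.MP_221c76_co.Tm.Cl2

universe u

namespace Pool.Agent.MP_221c76_co.Tm

open MultiGraph Set

variable {P : Set MultiGraph.{u}} {hP : Hyp P} {k : ℕ}

/-- the loops at the apex -/
abbrev apex (G : MultiGraph.{u}) (k : ℕ) : Set (big G).E := newLoops G k (.inr 0)

lemma inl_notMem_newLoops {G : MultiGraph.{u}} {z : (big G).V} (e : G.E) :
    (Sum.inl e : (big G).E) ∉ newLoops G k z := fun h => by
  obtain ⟨n, -, h⟩ := mem_newLoops.1 h
  cases h

lemma disj_apex {G : MultiGraph.{u}} (J : Set G.E) : Disjoint (apex G k) (Sum.inl '' J) := by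
  rw [Set.disjoint_right]
  rintro _ ⟨e, -, rfl⟩
  exact inl_notMem_newLoops e

lemma Hyp.Bk.forest_of_indep (hk : hP.Bk k) (hG : hP.CaseG k) {G : MultiGraph.{u}} {J : Set G.E}
    (hJ : (hP.M (big G)).Indep (apex G k ∪ Sum.inl '' J)) : IsForest G J := by
  classical
  intro A W ⟨e₀, he₀⟩ hW
  obtain ⟨r, r', hr⟩ := exists_ends e₀
  have hrA : r ∈ A := (hW e₀ he₀).2 r (by simp [hr])
  have hZ := lp_newLoops G k (.inr 0)
  let g : G.V → (big G).E := fun v => .inr (s(.inl r, .inl v), 0)
  have hcl : ∀ {l : (big G).E} {x}, (big G).ends l = s(x, x) →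
      l ∈ (hP.M (big G)).closure (g '' (A.erase r : Finset G.V) ∪ apex G k) := fun hl =>
    (hP.M _).closure_subset_closure subset_union_right (hk.caseG hG hZ hl)
  have hg : ∀ v ∈ A, g v ∈ (hP.M (big G)).closure (g '' (A.erase r : Finset G.V) ∪ apex G k) := by
    intro v hv
    by_cases h : v = r
    · exact hcl (x := .inl r) (by rw [h]; rfl)
    · exact hP.sub _ (Or.inl ⟨v, Finset.mem_erase.2 ⟨h, hv⟩, rfl⟩)
  have h1 := count_closure (M := hP.M (big G)) (Y := Sum.inl '' (W : Set G.E)) (U := apex G k)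
    (F := g '' (A.erase r : Finset G.V))
    (hJ.subset (union_subset ((image_mono fun e he => (hW e he).1).trans subset_union_right)
      subset_union_left)) (disj_apex _).symm (by
      rintro _ ⟨e, he, rfl⟩
      obtain ⟨a, b, hab⟩ := exists_ends e
      refine (hP.M _).closure_subset_closure_of_subset_closure (union_subset ?_ ?_)
        (hk.tri (lp_newLoops G k (.inl r)) (e := .inl e) (g₁ := g a) (g₂ := g b) (a := .inl a)
          (b := .inl b) (by simp [hab]) rfl rfl)
      · exact fun y hy => hcl ((lp_newLoops G k (.inl r)).loop y hy)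
      · rintro y (rfl | rfl)
        · exact hg a ((hW e he).2 a (by simp [hab]))
        · exact hg b ((hW e he).2 b (by simp [hab])))
  have h2 := h1.trans (encard_image_le _ _)
  rw [Sum.inl_injective.encard_image, encard_coe_eq_coe_finsetCard, encard_coe_eq_coe_finsetCard,
    Finset.card_erase_of_mem hrA] at h2
  have h3 : W.card ≤ A.card - 1 := by exact_mod_cast h2
  have h4 : 0 < A.card := Finset.card_pos.2 ⟨r, hrA⟩
  omega

lemma leaf_count {G : MultiGraph.{u}} (A : Finset G.V) (W : Finset G.E)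
    (h : ∀ v ∈ A, ∃ e ∈ W, v ∈ G.ends e ∧
      (G.ends e = s(v, v) ∨ ∃ e' ∈ W, e' ≠ e ∧ v ∈ G.ends e')) : A.card ≤ W.card := by
  classical
  choose x y hxy using exists_ends (G := G)
  let d : G.E → G.V → ℕ := fun e w => (if x e = w then 1 else 0) + if y e = w then 1 else 0
  have d1 : ∀ e w, w ∈ G.ends e → 1 ≤ d e w := fun e w h => by
    rw [hxy, Sym2.mem_iff] at h
    rcases h with rfl | rfl <;> simp [d]
  have d2 : ∀ e w, G.ends e = s(w, w) → d e w = 2 := fun e w h => by
    rw [hxy, Sym2.eq_iff, or_self] at h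
    simp [d, h.1, h.2]
  have h5 : ∀ w ∈ A, 2 ≤ ∑ e ∈ W, d e w := fun w hw => by
    obtain ⟨e, he, hv, h1 | ⟨e', he', hne, hv'⟩⟩ := h w hw
    · rw [← d2 e w h1]
      exact Finset.single_le_sum (f := fun e => d e w) (fun _ _ => Nat.zero_le _) he
    · have := Finset.add_le_sum (f := fun e => d e w) (fun _ _ => Nat.zero_le _) he' he hne
      have := d1 _ _ hv
      have := d1 _ _ hv'
      omega
  have h6 := Finset.card_nsmul_le_sum _ _ _ h5
  have h7 := Finset.sum_le_card_nsmul W (fun e => ∑ w ∈ A, d e w) 2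
    fun e _ => by
      simp only [d, Finset.sum_add_distrib, Finset.sum_ite_eq]
      split_ifs <;> omega
  rw [Finset.sum_comm] at h6
  simp only [smul_eq_mul] at h6 h7
  omega

lemma Hyp.Bk.indep_of_forest (hk : hP.Bk k) (hG : hP.CaseG k) {G : MultiGraph.{u}} {J : Set G.E}
    (hJ : IsForest G J) : (hP.M (big G)).Indep (apex G k ∪ Sum.inl '' J) := by
  classical
  have hZ := lp_newLoops G k (.inr 0)
  rw [hP.indep_iff]
  intro D hD hc
  obtain ⟨A, W, j, p, f, R⟩ := hP.core_in hc
  have hW : ∀ e ∈ D, e ∈ W := fun e he =>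
    ((R.mem e).1 he).resolve_right fun ⟨i, _⟩ => hk.bean hG (hk.rayDep hc R i)
  let W' : Finset G.E := W.preimage Sum.inl Sum.inl_injective.injOn
  have hW' : ∀ e, e ∈ W' ↔ Sum.inl e ∈ D := fun e =>
    Finset.mem_preimage.trans ⟨fun h => (R.mem _).2 (Or.inl h), hW _⟩
  have hne : W'.Nonempty := by
    by_contra h
    refine hc.not_indep ((hk.indep hZ).subset fun y hy => ?_)
    rcases hD hy with h1 | ⟨e, -, rfl⟩
    · exact h1
    · exact absurd ⟨e, (hW' e).2 hy⟩ h
  let A' : Finset G.V := W'.biUnion fun e => (G.ends e).toFinset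
  have h1 := hJ A' W' hne fun e he => ⟨by
    rcases hD ((hW' e).1 he) with h | ⟨e', h, h'⟩
    · exact absurd h (inl_notMem_newLoops e)
    · exact Sum.inl_injective h' ▸ h, fun x hx => Finset.mem_biUnion.2 ⟨e, he, by simpa using hx⟩⟩
  have h2 := leaf_count A' W' fun v hv => by
    obtain ⟨e, he, hve⟩ := Finset.mem_biUnion.1 hv
    have hve : v ∈ G.ends e := by simpa using hve
    refine ⟨e, he, hve, ?_⟩
    obtain ⟨a, ha⟩ := Sym2.mem_iff_exists.1 hve
    by_cases hav : a = v
    · exact Or.inl (hav ▸ ha)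
    · obtain ⟨e', he', hne, hv'⟩ := hP.no_leaf hc ((hW' e).1 he) (a := .inl a) (w := .inl v)
        (by simp [ha]) (by simpa using hav)
      rcases hD he' with h | ⟨c, -, rfl⟩
      · exact absurd hv' (hZ.notMem h (by simp))
      · exact Or.inr ⟨c, (hW' c).2 he', fun h => hne (by rw [h]), mem_inl.1 hv'⟩
  omega

/-- the sparsity condition of the two bicircular cases -/
def Hyp.Sparse (hP : Hyp P) (k : ℕ) (G : MultiGraph.{u}) (J : Set G.E) : Prop :=
  ∀ (A : Finset G.V) (W : Finset G.E) (j : ℕ) (p : Fin j → ℕ → G.V) (f : Fin j → ℕ → G.E),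
    (Fin j → hP.RayDep k) → (∀ e ∈ W, e ∈ J ∧ ∀ x ∈ G.ends e, x ∈ A) → RaysIn G A j p f →
    (∀ i t, f i t ∈ J) → W.card + j ≤ A.card

lemma Hyp.Bk.sparse_of_indep (hk : hP.Bk k) {G : MultiGraph.{u}} {J : Set G.E}
    (hJ : (hP.M (big G)).Indep (apex G k ∪ Sum.inl '' J)) : hP.Sparse k G J := by
  classical
  intro A W j p f hR hW R hf
  have hZ := lp_newLoops G k (.inr 0)
  let Y₀ : Finset G.E := W ∪ Finset.univ.image fun i => f i 0
  have hY₀ : Y₀.card = W.card + j := R.card fun e he => (hW e he).2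
  let U : Set (big G).E := apex G k ∪ {y | ∃ i t, y = .inl (f i (t + 1))}
  have h1 := count_closure (M := hP.M (big G)) (Y := Sum.inl '' (Y₀ : Set G.E)) (U := U)
    (F := sv G 0 '' (A : Set G.V)) (hJ.subset (by
      rintro _ (⟨e, he, rfl⟩ | h | ⟨i, t, rfl⟩)
      · rcases Finset.mem_union.1 he with h | h
        · exact Or.inr ⟨e, (hW e h).1, rfl⟩
        · obtain ⟨i, -, rfl⟩ := Finset.mem_image.1 h
          exact Or.inr ⟨_, hf i 0, rfl⟩
      · exact Or.inl h
      · exact Or.inr ⟨_, hf _ _, rfl⟩)) (by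
      rw [Set.disjoint_left]
      rintro _ ⟨e, he, rfl⟩ (h | ⟨i, t, h⟩)
      · exact inl_notMem_newLoops e h
      · obtain rfl := Sum.inl_injective h
        rcases Finset.mem_union.1 he with h | h
        · exact R.out i _ ((hW _ h).2 _ (R.far i _))
        · obtain ⟨i', -, h⟩ := Finset.mem_image.1 h
          have := (R.finj h).2
          omega) (by
      rintro _ ⟨e, he, rfl⟩
      rw [← Matroid.closure_closure]
      refine hk.star 0 e (fun y hy => hP.sub _ (Or.inr (Or.inl hy))) fun x hx => ?_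
      by_cases hxA : x ∈ A
      · exact hP.sub _ (Or.inl ⟨x, hxA, rfl⟩)
      rcases Finset.mem_union.1 he with h | h
      · exact absurd ((hW e h).2 x hx) hxA
      obtain ⟨i, -, rfl⟩ := Finset.mem_image.1 h
      rw [R.edge, Sym2.mem_iff] at hx
      rcases hx with rfl | rfl
      · exact absurd (R.start i) hxA
      have hL : Lasso (big G) k (.inr 0) (newLoops G k (.inr 0)) (fun t => .inl (p i (t + 1)))
          (fun t => .inl (f i (t + 1))) (sv G 0 (p i (0 + 1))) :=
        ⟨hZ, fun a b h => (R.inj _ _ _ _ (Sum.inl_injective h)).2, fun t => by simp,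
          fun t => by simp [R.edge], rfl⟩
      refine (hP.M _).closure_subset_closure ?_ ((Hyp.rayDep_iff hL).2 (hR i))
      rintro y (h | ⟨t, rfl⟩)
      · exact Or.inr (Or.inl h)
      · exact Or.inr (Or.inr ⟨i, t, rfl⟩))
  rw [Sum.inl_injective.encard_image, (sv_inj G 0).encard_image, encard_coe_eq_coe_finsetCard,
    encard_coe_eq_coe_finsetCard, hY₀] at h1
  exact_mod_cast h1

lemma Hyp.Bk.indep_of_sparse (hk : hP.Bk k) (hG : ¬ hP.CaseG k) {G : MultiGraph.{u}}
    {J : Set G.E} (hJ : hP.Sparse k G J) : (hP.M (big G)).Indep (apex G k ∪ Sum.inl '' J) := by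
  classical
  have hZ := lp_newLoops G k (.inr 0)
  rw [hP.indep_iff]
  intro D hD hc
  obtain ⟨A, W, j, p, f, R⟩ := hP.core_in hc
  have hlow := hk.lower hG hc R
  have hpos := hk.pos hG
  have hf : ∀ i t, ∃ e ∈ J, Sum.inl e = f i t := by
    intro i t
    refine (hD ((R.mem _).2 (Or.inr ⟨i, t, rfl⟩))).resolve_left fun h => ?_
    have h1 := hZ.loop _ h
    rw [R.edge, Sym2.eq_iff, or_self] at h1
    have := R.pinj i (h1.1.trans h1.2.symm)
    omega
  choose f' hf' hff using hf
  have hp : ∀ i t, ∃ v, Sum.inl v = p i t := by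
    intro i t
    have h1 : p i t ∈ (big G).ends (.inl (f' i t)) := by
      rw [hff, R.edge]; exact Sym2.mem_mk_left _ _
    obtain ⟨v, -, hv⟩ := Sym2.mem_map.1 h1
    exact ⟨v, hv⟩
  choose p' hpp using hp
  let A' : Finset G.V := A.preimage Sum.inl Sum.inl_injective.injOn
  let W' : Finset G.E := W.preimage Sum.inl Sum.inl_injective.injOn
  have hA' : ∀ v, v ∈ A' ↔ Sum.inl v ∈ A := fun v => Finset.mem_preimage
  have hW' : ∀ e, e ∈ W' ↔ Sum.inl e ∈ W := fun e => Finset.mem_preimage
  have h1 := hJ A' W' j p' f' (hk.rayDep hc R) (fun e he => ⟨by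
      rcases hD ((R.mem _).2 (Or.inl ((hW' e).1 he))) with h | ⟨e', h, h'⟩
      · exact absurd h (inl_notMem_newLoops e)
      · exact Sum.inl_injective h' ▸ h,
      fun x hx => (hA' x).2 (R.inside _ ((hW' e).1 he) _ (mem_inl.2 hx))⟩)
    ⟨fun i => (hA' _).2 (hpp i 0 ▸ R.start i), fun i t h => R.out i t (hpp i _ ▸ (hA' _).1 h),
      fun i t i' t' h => R.inj i t i' t' (by rw [← hpp, ← hpp, h]), fun i t => by
        apply Sym2.map.injective (f := (Sum.inl : G.V → (big G).V)) Sum.inl_injective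
        have := R.edge i t
        rw [← hff, ← hpp, ← hpp] at this
        exact this⟩ hf'
  have h2 : W ⊆ W'.map ⟨Sum.inl, Sum.inl_injective⟩ ∪ (W ∩ newLoops G k (.inr 0)) := by
    intro y hy
    rcases hD ((R.mem _).2 (Or.inl hy)) with h | ⟨e, -, rfl⟩
    · exact Finset.mem_union_right _ (Finset.mem_inter.2 ⟨hy, h⟩)
    · exact Finset.mem_union_left _ (Finset.mem_map.2 ⟨e, (hW' e).2 hy, rfl⟩)
  have h3 := (Finset.card_le_card h2).trans (Finset.card_union_le _ _)
  rw [Finset.card_map] at h3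
  have h4 : A'.map ⟨Sum.inl, Sum.inl_injective⟩ ⊆ A := by
    intro y hy
    obtain ⟨v, hv, rfl⟩ := Finset.mem_map.1 hy
    exact (hA' v).1 hv
  rcases (W ∩ newLoops G k (.inr 0)).eq_empty_or_nonempty with h | ⟨y, hy⟩
  · have h5 := Finset.card_le_card h4
    rw [Finset.card_map] at h5
    rw [h, Finset.card_empty] at h3
    omega
  · have h5 : (Sum.inr 0 : (big G).V) ∈ A := R.inside y (Finset.mem_inter.1 hy).1 _ (by
      rw [hZ.loop y (Finset.mem_inter.1 hy).2]; exact Sym2.mem_mk_left _ _)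
    have h6 := Finset.card_lt_card (Finset.ssubset_iff_subset_ne.2 ⟨h4, fun h => by
      rw [← h] at h5
      simp at h5⟩)
    rw [Finset.card_map] at h6
    have h7 := Finset.card_le_card (Finset.inter_subset_right (s₁ := W)
      (s₂ := newLoops G k (.inr 0)))
    rw [hZ.card] at h7
    omega

/-- deleting few edges makes an independent set independent together with the apex loops -/
lemma Hyp.Bk.delete (hk : hP.Bk k) {G : MultiGraph.{u}} {I : Set G.E} (L : Finset (big G).E)
    (hL : (L : Set (big G).E) ⊆ apex G k) (hI : (hP.M (big G)).Indep (L ∪ Sum.inl '' I)) :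
    ∃ F : Finset G.E, F.card + L.card ≤ k ∧
      (hP.M (big G)).Indep (apex G k ∪ Sum.inl '' (I \ F)) := by
  have hZ := lp_newLoops G k (.inr 0)
  obtain ⟨B, hB, hZB⟩ := (hk.indep hZ).subset_isBasis_of_subset (X := apex G k ∪ Sum.inl '' I)
    subset_union_left (by rw [hP.M_ground]; exact subset_univ _)
  let F : Set G.E := {e | e ∈ I ∧ Sum.inl e ∉ B}
  have hd : Disjoint (L : Set (big G).E) (Sum.inl '' F) := (disj_apex F).mono_left hL
  have h1 := count_closure (M := hP.M (big G)) (Y := L ∪ Sum.inl '' F) (U := Sum.inl '' (I \ F))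
    (F := apex G k) (hI.subset (union_subset (union_subset_union_right _
      (image_mono fun e he => he.1)) ((image_mono sdiff_subset).trans subset_union_right)))
    (disjoint_union_left.2 ⟨(disj_apex _).mono_left hL,
      (disjoint_image_iff Sum.inl_injective).2 disjoint_sdiff_right⟩) (by
      refine Subset.trans (union_subset_union hL (image_mono fun e he => he.1))
        (hB.subset_closure.trans ((hP.M _).closure_subset_closure fun y hy => ?_))
      rcases hB.subset hy with h | ⟨e, he, rfl⟩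
      · exact Or.inl h
      · exact Or.inr ⟨e, ⟨he, fun h => h.2 hy⟩, rfl⟩)
  rw [encard_union_eq hd, Sum.inl_injective.encard_image, encard_coe_eq_coe_finsetCard,
    encard_coe_eq_coe_finsetCard, hZ.card] at h1
  have hF : F.Finite := finite_of_encard_le_coe (le_add_self.trans h1)
  refine ⟨hF.toFinset, ?_, hB.indep.subset (union_subset hZB ?_)⟩
  · rw [← hF.coe_toFinset, encard_coe_eq_coe_finsetCard] at h1
    have : L.card + hF.toFinset.card ≤ k := by exact_mod_cast h1
    omega
  · rintro _ ⟨e, he, rfl⟩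
    by_contra h
    exact he.2 (hF.mem_toFinset.2 ⟨he.1, h⟩)

/-- the converse count -/
lemma Hyp.Bk.undelete (_hk : hP.Bk k) {G : MultiGraph.{u}} {I : Set G.E} (L : Finset (big G).E)
    (hL : ∀ C, (hP.M G).IsCircuit C → apex G k ⊆ (hP.M (big G)).closure (L ∪ Sum.inl '' C))
    (F : Finset G.E) (hF : F.card + L.card ≤ k)
    (hI : (hP.M (big G)).Indep (apex G k ∪ Sum.inl '' (I \ F))) : (hP.M G).Indep I := by
  classical
  rw [hP.indep_iff]
  intro C hC hc
  obtain ⟨e, he, heF⟩ : ∃ e ∈ C, e ∈ F := by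
    by_contra h
    push Not at h
    exact (hP.big_iff.1 hc).not_indep (hI.subset
      ((image_mono (t := I \ F) fun e he => ⟨hC he, h e he⟩).trans subset_union_right))
  have h1 := count_closure (F := L ∪ Sum.inl '' (F.erase e : Finset G.E)) hI (disj_apex _) (by
    refine (hL C hc).trans ((hP.M _).closure_subset_closure_of_subset_closure (union_subset ?_ ?_))
    · exact fun y hy => hP.sub _ (Or.inl (Or.inl hy))
    · refine ((hP.big_iff.1 hc).subset_closure_sdiff_singleton (.inl e)).trans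
        ((hP.M _).closure_subset_closure ?_)
      rintro _ ⟨⟨c, hcC, rfl⟩, hne⟩
      by_cases h : c ∈ F
      · exact Or.inl (Or.inr ⟨c, Finset.mem_erase.2 ⟨fun h => hne (by rw [h]; rfl), h⟩, rfl⟩)
      · exact Or.inr ⟨c, ⟨hC hcC, h⟩, rfl⟩)
  have h2 := h1.trans (encard_union_le _ _)
  rw [Sum.inl_injective.encard_image, encard_coe_eq_coe_finsetCard, encard_coe_eq_coe_finsetCard,
    encard_coe_eq_coe_finsetCard, (lp_newLoops G k (.inr 0)).card, Finset.card_erase_of_mem heF]
    at h2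
  have h3 : k ≤ L.card + (F.card - 1) := by exact_mod_cast h2
  have h4 : 0 < F.card := Finset.card_pos.2 ⟨e, heF⟩
  omega

lemma Hyp.Bk.indep_iff_G (hk : hP.Bk k) (hG : hP.CaseG k) (G : MultiGraph.{u}) (I : Set G.E) :
    (hP.M G).Indep I ↔ ∃ F : Finset G.E, F.card ≤ k ∧ IsForest G (I \ F) := by
  constructor
  · intro h
    obtain ⟨F, h1, h2⟩ := hk.delete (I := I) ∅ (by simp) (by simpa using hP.big_indep.2 h)
    exact ⟨F, by simpa using h1, hk.forest_of_indep hG h2⟩
  · rintro ⟨F, h1, h2⟩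
    refine hk.undelete ∅ (fun C hC => ?_) F (by simpa using h1) (hk.indep_of_forest hG h2)
    obtain ⟨e, he⟩ := hC.nonempty
    obtain ⟨x, y, hxy⟩ := exists_ends e
    have hZ := lp_newLoops G k (.inl x)
    intro l hl
    refine (hP.M _).closure_subset_closure_of_subset_closure (fun c hc => ?_)
      (hk.caseG hG hZ ((lp_newLoops G k (.inr 0)).loop l hl))
    exact (hP.M _).closure_subset_closure subset_union_right
      (hP.loop_closure (hP.big_iff.1 hC) ⟨e, he, rfl⟩ (mem_inl.2 (by simp [hxy])) (hZ.loop c hc))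

lemma Hyp.Bk.indep_iff_B (hk : hP.Bk k) (hG : ¬ hP.CaseG k) (G : MultiGraph.{u}) (I : Set G.E) :
    (hP.M G).Indep I ↔ ∃ F : Finset G.E, F.card ≤ k - 1 ∧ hP.Sparse k G (I \ F) := by
  have hpos := hk.pos hG
  let l : (big G).E := .inr (s(.inr 0, .inr 0), 0)
  constructor
  · intro h
    have hZ := lp_newLoops G k (.inr 1)
    have h0 : l ∉ (hP.M (big G)).closure (Sum.inl '' I) := by
      intro h1
      have h2 : l ∈ (hP.M (big G)).closure (newLoops G k (.inr 1) ∪ range (sv G 1)) := by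
        refine (hP.M _).closure_subset_closure_of_subset_closure ?_ h1
        rintro _ ⟨e, -, rfl⟩
        exact hk.star 1 e subset_union_left fun x _ => Or.inr ⟨x, rfl⟩
      have h3 : l ∉ (newLoops G k (.inr 1) : Set (big G).E) ∪ range (sv G 1) := by
        rintro (h | ⟨v, h⟩)
        · exact hZ.notMem h (v := .inr 0) (by simp) (Sym2.mem_mk_left _ _)
        · simp [sv, l] at h
      obtain ⟨D, hD, hDc, hlD⟩ := (Matroid.mem_closure_iff_exists_isCircuit h3).1 h2
      refine hG ((Hyp.caseG_iff (G := big G) hZ (l := l) (x := Sum.inr 0) rfl (by simp)).1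
        (hP.mem_closure hDc hlD fun y hy hne => ?_))
      rcases hD hy with h | h | ⟨v, rfl⟩
      · exact absurd h hne
      · exact h
      · obtain ⟨y', hy', hne', hv⟩ := hP.no_leaf hDc hy (sv_ends G 1 v) (by simp)
        rcases hD hy' with rfl | h | ⟨w, rfl⟩
        · simp [l] at hv
        · exact absurd hv (hZ.notMem h (by simp))
        · exact absurd (by rw [mem_sv hv]) hne'
    have h1 : (hP.M (big G)).Indep (Insert.insert l (Sum.inl '' I)) := by
      rw [(hP.big_indep.2 h).insert_indep_iff_of_notMem (by simp [l]), hP.M_ground]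
      exact ⟨mem_univ _, h0⟩
    obtain ⟨F, h2, h3⟩ := hk.delete (I := I) {l}
      (by simpa using mem_newLoops.2 ⟨0, hpos, rfl⟩) (by simpa using h1)
    rw [Finset.card_singleton] at h2
    exact ⟨F, by omega, hk.sparse_of_indep h3⟩
  · rintro ⟨F, h1, h2⟩
    refine hk.undelete {l} (fun C hC l' hl' => ?_) F (by rw [Finset.card_singleton]; omega)
      (hk.indep_of_sparse hG h2)
    rw [Finset.coe_singleton, singleton_union]
    exact hk.apex_closure hG hC rfl ((lp_newLoops G k (.inr 0)).loop l' hl')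

lemma Hyp.eq_series (hP : Hyp P) (Q : ∀ G : MultiGraph.{u}, Set G.E → Prop) (r : ℕ)
    (h : ∀ (G : MultiGraph.{u}) (I : Set G.E),
      (hP.M G).Indep I ↔ ∃ F : Finset G.E, F.card ≤ r ∧ Q G (I \ F)) : P = Series Q r := by
  ext G
  have h1 : (fun I : Set G.E => ∀ F : Finset G.E, F.card ≤ r → ¬ Q G (I \ F)) =
      fun I => ¬ (hP.M G).Indep I := by
    funext I
    rw [h]
    simp
  have h2 := Matroid.isCircuit_iff_minimal_not_indep (M := hP.M G) (C := univ)
    (by rw [hP.M_ground])
  constructor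
  · intro hG
    refine ⟨hP.noiso G hG, ?_⟩
    rw [h1]
    exact h2.1 (hP.univ_circ hG)
  · rintro ⟨hN, hM⟩
    rw [h1] at hM
    refine hP.iso_mem (hP.M_circ.1 (h2.2 hM)) (iso_of_maps Subtype.val Subtype.val
      ⟨Subtype.val_injective, fun x => ?_⟩ ⟨Subtype.val_injective, fun x => ⟨⟨x, trivial⟩, rfl⟩⟩
      fun e => (toGraph_ends _ e).symm)
    obtain ⟨e, he⟩ := hN x
    exact ⟨⟨x, e, trivial, he⟩, rfl⟩

theorem Hyp.classify (hP : Hyp P) (hne : P.Nonempty) : ∃ r : ℕ, P = Series IsForest r ∨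
    P = Series IsPseudoforest r ∨ P = Series IsEndPseudoforest r := by
  obtain ⟨k, hk⟩ : ∃ k, hP.Bk k := hP.bouquet hne
  by_cases hG : hP.CaseG k
  · exact ⟨k, Or.inl (hP.eq_series _ _ (hk.indep_iff_G hG))⟩
  refine ⟨k - 1, Or.inr ?_⟩
  by_cases hR : hP.RayDep k
  · refine Or.inr (hP.eq_series _ _ fun G I => (hk.indep_iff_B hG G I).trans ?_)
    refine exists_congr fun F => and_congr_right fun _ => ⟨fun h A W j p f h1 h2 h3 h4 h5 =>
      h A W j p f (fun _ => hR) h1 ⟨h2, h3, h4, fun i t => (h5 i t).2⟩ fun i t => (h5 i t).1,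
      fun h A W j p f _ h1 R h2 =>
        h A W j p f h1 R.start R.out R.inj fun i t => ⟨h2 i t, R.edge i t⟩⟩
  · refine Or.inl (hP.eq_series _ _ fun G I => (hk.indep_iff_B hG G I).trans ?_)
    refine exists_congr fun F => and_congr_right fun _ => ⟨fun h A W h1 =>
      h A W 0 Fin.elim0 Fin.elim0 Fin.elim0 h1 ⟨fun i => i.elim0, fun i => i.elim0,
        fun i => i.elim0, fun i => i.elim0⟩ fun i => i.elim0, fun h A W j p f h0 h1 _ _ => ?_⟩
    rcases Nat.eq_zero_or_pos j with rfl | hj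
    · exact h A W h1
    · exact absurd (h0 ⟨0, hj⟩) hR

end Pool.Agent.MP_221c76_co.Tm
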