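import Pool.Agent.MP_221c76_co.Tm.St

set_option autoImplicit false

universe u

namespace Pool.Agent.MP_221c76_co.Tm.F

open MultiGraph Relation

/-- edges inside a vertex set -/
def EB (G : MultiGraph.{u}) (B : Finset G.V) : Set G.E := {e | ∀ x ∈ G.ends e, x ∈ B}

/-- boundary edges -/
def DB (G : MultiGraph.{u}) (B : Finset G.V) : Set G.E :=
  {e | ∃ x ∈ B, ∃ y, y ∉ B ∧ G.ends e = s(x, y)}

/-- maximisers of the number of inner edges minus the number of vertices -/
def M1 (G : MultiGraph.{u}) (A B : Finset G.V) : Prop :=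
  A ⊆ B ∧ ∀ B', A ⊆ B' → (EB G B').ncard + B.card ≤ (EB G B).ncard + B'.card

lemma fin_of_bound {α : Type u} {S : Set α} {n : ℕ}
    (h : ∀ W : Finset α, (W : Set α) ⊆ S → W.card ≤ n) : S.Finite ∧ S.ncard ≤ n := by
  have hf : S.Finite := by
    by_contra hi
    obtain ⟨W, h1, h2⟩ := Set.Infinite.exists_subset_card_eq hi (n + 1)
    have := h W h1
    omega
  refine ⟨hf, ?_⟩
  rw [Set.ncard_eq_toFinset_card S hf]
  exact h _ (by simp)

lemma ex_max {α : Type u} (P : α → Prop) (f : α → ℤ) (n : ℤ) (hne : ∃ a, P a)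
    (hb : ∀ a, P a → f a ≤ n) : ∃ a, P a ∧ ∀ b, P b → f b ≤ f a := by
  obtain ⟨a, ha⟩ := hne
  obtain ⟨m, ⟨c, hc, rfl⟩, hm⟩ := Int.exists_greatest_of_bdd (P := fun z => ∃ a, P a ∧ f a = z)
    ⟨n, by rintro z ⟨a, ha, rfl⟩; exact hb a ha⟩ ⟨f a, a, ha, rfl⟩
  exact ⟨c, hc, fun b hb => hm _ ⟨b, hb, rfl⟩⟩

variable {G : MultiGraph.{u}} {k : ℕ}

lemma adj_of_mem {e : G.E} {x y : G.V} (hx : x ∈ G.ends e) (hy : y ∈ G.ends e) :
    x = y ∨ Adj G x y := by
  by_cases h : x = y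
  · exact Or.inl h
  · exact Or.inr ⟨e, (Sym2.mem_and_mem_iff h).1 ⟨hx, hy⟩⟩

lemma reach_of_mem {e : G.E} {x y : G.V} (hx : x ∈ G.ends e) (hy : y ∈ G.ends e) :
    ReflTransGen (Adj G) x y := by
  rcases adj_of_mem hx hy with rfl | h
  · exact .refl
  · exact .single h

lemma reach_symm {x y : G.V} (h : ReflTransGen (Adj G) x y) : ReflTransGen (Adj G) y x := by
  induction h with
  | refl => exact .refl
  | tail _ h ih =>
    obtain ⟨e, he⟩ := h
    exact .head ⟨e, he.trans Sym2.eq_swap⟩ ih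

lemma eb_fin (h : Ineq G k) (B : Finset G.V) : (EB G B).Finite ∧ (EB G B).ncard ≤ B.card + k :=
  fin_of_bound fun W hW => by
    simpa using h B W ∅ (fun _ => ∅) (fun e he => hW he) (by simp) (by simp) (by simp) (by simp)

lemma ex_roots (h : Ineq G k) (hi : G.NoIsolatedVertex) :
    ∃ A : Finset G.V, ∀ x, ∃ a ∈ A, ReflTransGen (Adj G) a x := by
  classical
  let R : G.E → G.E → Prop := fun e e' =>
    ∃ x ∈ G.ends e, ∃ y ∈ G.ends e', ReflTransGen (Adj G) x y
  obtain ⟨s, hs, hm⟩ := ex_max (fun s : Finset G.E => ∀ t ∈ s, ∀ t' ∈ s, R t t' → t' = t)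
    (fun s => s.card) k ⟨∅, by simp⟩ (fun s hs => by
      have := h ∅ ∅ s (fun t => {e | R t e}) (by simp)
        (fun t _ => ⟨_, Sym2.out_fst_mem (G.ends t), _, Sym2.out_fst_mem (G.ends t), .refl⟩)
        (by simp) hs (by
          rintro t _ e ⟨a, ha, b, hb, hab⟩ e' he' x hx hx'
          exact absurd ⟨a, ha, x, hx', hab.trans (reach_of_mem hb hx)⟩ he')
      simpa using this)
  refine ⟨s.image fun e => (G.ends e).out.1, fun x => ?_⟩
  obtain ⟨e, he⟩ := hi x
  by_cases h1 : ∃ t ∈ s, R t e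
  · obtain ⟨t, ht, a, ha, b, hb, hab⟩ := h1
    exact ⟨_, Finset.mem_image_of_mem _ ht,
      ((reach_of_mem (Sym2.out_fst_mem _) ha).trans hab).trans (reach_of_mem hb he)⟩
  · push Not at h1
    have h2 : e ∉ s := fun h2 => h1 e h2 ⟨x, he, x, he, .refl⟩
    have := hm (insert e s) (by
      intro t ht0 t' ht0' hr
      rcases Finset.mem_insert.1 ht0 with h3 | ht
      · rcases Finset.mem_insert.1 ht0' with h4 | ht'
        · rw [h3, h4]
        · obtain ⟨a, ha, b, hb, hab⟩ := hr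
          exact absurd ⟨b, hb, a, h3 ▸ ha, reach_symm hab⟩ (h1 t' ht')
      · rcases Finset.mem_insert.1 ht0' with h4 | ht'
        · exact absurd (h4 ▸ hr) (h1 t ht)
        · exact hs t ht t' ht' hr)
    rw [Finset.card_insert_of_notMem h2] at this
    omega

lemma ex_m1 (h : Ineq G k) (A : Finset G.V) : ∃ B, M1 G A B := by
  obtain ⟨B, h1, h2⟩ := ex_max (fun B : Finset G.V => A ⊆ B)
    (fun B => ((EB G B).ncard : ℤ) - B.card) k ⟨A, subset_rfl⟩ (fun B _ => by
      have := (eb_fin h B).2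
      omega)
  refine ⟨B, h1, fun B' hB' => ?_⟩
  have := h2 B' hB'
  omega

lemma ins [DecidableEq G.V] (h : Ineq G k) {A B : Finset G.V} (hB : M1 G A B) {x y : G.V}
    (hx : x ∈ B) (hy : y ∉ B) {e : G.E} (he : G.ends e = s(x, y)) :
    M1 G A (insert y B) ∧ EB G (insert y B) = insert e (EB G B) := by
  have h1 : insert e (EB G B) ⊆ EB G (insert y B) := by
    rintro g (rfl | hg) z hz
    · rw [he] at hz
      rcases Sym2.mem_iff.1 hz with rfl | rfl
      · exact Finset.mem_insert_of_mem hx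
      · exact Finset.mem_insert_self _ _
    · exact Finset.mem_insert_of_mem (hg z hz)
  have h2 : e ∉ EB G B := fun h2 => hy (h2 y (by rw [he]; simp))
  have h3 := Set.ncard_insert_of_notMem h2 (eb_fin h B).1
  have h4 := Finset.card_insert_of_notMem hy
  have h5 : A ⊆ insert y B := hB.1.trans (Finset.subset_insert _ _)
  have h6 := hB.2 _ h5
  have h7 := (Set.eq_of_subset_of_ncard_le h1 (by omega) (eb_fin h _).1).symm
  refine ⟨⟨h5, fun B' hB' => ?_⟩, h7⟩
  have := hB.2 B' hB'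
  rw [h7]
  omega

lemma sep (h : Ineq G k) {A B : Finset G.V} (hB : M1 G A B) {a a' v v' : G.V} (ha : a ∈ B)
    (ha' : a' ∈ B) (hv : v ∉ B) (hv' : v' ∉ B) {e e' : G.E} (he : G.ends e = s(a, v))
    (he' : G.ends e' = s(a', v'))
    (hp : ReflTransGen (fun x y => x ∉ B ∧ y ∉ B ∧ Adj G x y) v v') : e = e' := by
  classical
  by_contra hne
  have key : ∀ y, ReflTransGen (fun x y => x ∉ B ∧ y ∉ B ∧ Adj G x y) v y →
      ∃ C, M1 G A C ∧ B ⊆ C ∧ y ∈ C ∧ e' ∉ EB G C := by
    intro y hy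
    induction hy with
    | refl =>
      obtain ⟨h1, h2⟩ := ins h hB ha hv he
      refine ⟨_, h1, Finset.subset_insert _ _, Finset.mem_insert_self _ _, ?_⟩
      rw [h2]
      rintro (h3 | h3)
      · exact hne h3.symm
      · exact hv' (h3 v' (by rw [he']; simp))
    | @tail y z _ hz ih =>
      obtain ⟨C, h1, h2, h3, h4⟩ := ih
      obtain ⟨b1, b2, g, hg⟩ := hz
      by_cases hzC : z ∈ C
      · exact ⟨C, h1, h2, hzC, h4⟩
      obtain ⟨c1, c2⟩ := ins h h1 h3 hzC hg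
      refine ⟨_, c1, h2.trans (Finset.subset_insert _ _), Finset.mem_insert_self _ _, ?_⟩
      rw [c2]
      rintro (h5 | h5)
      · have : a' ∈ G.ends g := by rw [← h5, he']; simp
        rw [hg] at this
        rcases Sym2.mem_iff.1 this with rfl | rfl
        · exact b1 ha'
        · exact b2 ha'
      · exact h4 h5
  obtain ⟨C, -, h2, h3, h4⟩ := key v' hp
  refine h4 fun z hz => ?_
  rw [he'] at hz
  rcases Sym2.mem_iff.1 hz with rfl | rfl
  · exact h2 ha'
  · exact h3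

lemma db_fin (h : Ineq G k) {A B : Finset G.V} (hB : M1 G A B) :
    (DB G B).Finite ∧ (DB G B).ncard ≤ A.card + k := by
  refine fin_of_bound fun s hs => ?_
  have h1 := h B (eb_fin h B).1.toFinset s (fun t => {g | ∃ a ∈ B, ∃ v, v ∉ B ∧
    G.ends t = s(a, v) ∧ ∃ y ∈ G.ends g,
      ReflTransGen (fun x y => x ∉ B ∧ y ∉ B ∧ Adj G x y) v y ∧ y ∉ B})
    (fun e he => (Set.Finite.mem_toFinset _).1 he)
    (by
      intro t ht
      obtain ⟨a, ha, v, hv, e⟩ := hs ht
      exact ⟨a, ha, v, hv, e, v, by rw [e]; simp, .refl, hv⟩)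
    (by
      rintro t _ e he ⟨a, -, v, -, -, y, hy, -, hy'⟩
      exact hy' ((Set.Finite.mem_toFinset _).1 he y hy))
    (by
      rintro t _ t' ht' ⟨a, ha, v, hv, e, y, hy, hp, hy'⟩
      obtain ⟨a', ha', v', hv', e'⟩ := hs ht'
      rw [e'] at hy
      rcases Sym2.mem_iff.1 hy with rfl | rfl
      · exact absurd ha' hy'
      · exact (sep h hB ha ha' hv hv' e e' hp).symm)
    (by
      rintro t _ g ⟨a, ha, v, hv, e, y, hy, hp, hy'⟩ g' hg' x hx hx'
      by_contra hxB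
      refine hg' ⟨a, ha, v, hv, e, x, hx', ?_, hxB⟩
      rcases adj_of_mem hy hx with rfl | h2
      · exact hp
      · exact hp.tail ⟨hy', hxB, h2⟩)
  rw [← Set.ncard_eq_toFinset_card _ (eb_fin h B).1] at h1
  have := hB.2 A subset_rfl
  omega

end Pool.Agent.MP_221c76_co.Tm.F

namespace Pool.Agent.MP_221c76_co.Tm

open MultiGraph Relation F

theorem s_F : StF.{u} := by
  classical
  intro G k h hl hi
  obtain ⟨A, hA⟩ := ex_roots h hi
  refine ⟨{B | M1 G A B ∧ ∀ B', M1 G A B' → (DB G B').ncard ≤ (DB G B).ncard}, ?_, ?_, ?_,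
    fun B hB => (db_fin h hB.1).1,
    fun B hB a ha a' ha' v v' hv hv' e e' he he' hp => sep h hB.1 ha ha' hv hv' he he' hp⟩
  · obtain ⟨B, h1, h2⟩ := ex_max (M1 G A) (fun B => ((DB G B).ncard : ℤ)) (A.card + k)
      (ex_m1 h A) (fun B hB => by
        have := (db_fin h hB).2
        omega)
    exact ⟨B, h1, fun B' hB' => by exact_mod_cast h2 B' hB'⟩
  · intro B hB x
    obtain ⟨a, ha, hax⟩ := hA x
    exact ⟨a, hB.1.1 ha, hax⟩
  · rintro B ⟨hB, hm⟩ x hx y hy e he
    obtain ⟨h1, h2⟩ := ins h hB hx hy he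
    have h3 : ∀ g, g ≠ e → y ∈ G.ends g → g ∉ EB G (insert y B) := by
      intro g hg hyg
      rw [h2]
      rintro (h4 | h4)
      · exact hg h4
      · exact hy (h4 y hyg)
    have h4 : ∀ g, g ≠ e → y ∈ G.ends g → ∃ y', y' ∉ insert y B ∧ G.ends g = s(y, y') := by
      intro g hg hyg
      obtain ⟨y', hy'⟩ := Sym2.mem_iff_exists.1 hyg
      refine ⟨y', fun h5 => h3 g hg hyg fun z hz => ?_, hy'⟩
      rw [hy'] at hz
      rcases Sym2.mem_iff.1 hz with rfl | rfl
      · exact Finset.mem_insert_self _ _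
      · exact h5
    have h5 : ∀ g ∈ DB G B \ {e}, y ∉ G.ends g := by
      rintro g ⟨⟨a, ha, v, hv, hg⟩, hge⟩ hyg
      refine h3 g hge hyg fun z hz => ?_
      rw [hg] at hz hyg
      rcases Sym2.mem_iff.1 hz with rfl | rfl
      · exact Finset.mem_insert_of_mem ha
      · rcases Sym2.mem_iff.1 hyg with rfl | rfl
        · exact absurd ha hy
        · exact Finset.mem_insert_self _ _
    have hsub : (DB G B \ {e}) ∪ {g | g ≠ e ∧ y ∈ G.ends g} ⊆ DB G (insert y B) := by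
      rintro g (hg | hg)
      · have h6 := h5 g hg
        obtain ⟨⟨a, ha, v, hv, hg'⟩, -⟩ := hg
        refine ⟨a, Finset.mem_insert_of_mem ha, v, fun h7 => ?_, hg'⟩
        rcases Finset.mem_insert.1 h7 with rfl | h7
        · exact h6 (by rw [hg']; simp)
        · exact hv h7
      · obtain ⟨y', a1, a2⟩ := h4 g hg.1 hg.2
        exact ⟨y, Finset.mem_insert_self _ _, y', a1, a2⟩
    have hf := (db_fin h h1).1
    have hfO : {g | g ≠ e ∧ y ∈ G.ends g}.Finite := hf.subset (Set.subset_union_right.trans hsub)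
    have h6 := Set.ncard_le_ncard hsub hf
    rw [Set.ncard_union_eq (Set.disjoint_left.2 fun g hg hg' => h5 g hg hg'.2)
      ((db_fin h hB).1.subset Set.sdiff_subset) hfO] at h6
    have h7 := Set.ncard_sdiff_singleton_add_one (s := DB G B) (a := e) ⟨x, hx, y, hy, he⟩
      (db_fin h hB).1
    have h8 := hm _ h1
    obtain ⟨e', b1, b2⟩ := hl e x y he (fun h9 => hy (h9 ▸ hx))
    have h9 : 0 < {g | g ≠ e ∧ y ∈ G.ends g}.ncard := (Set.ncard_pos hfO).2 ⟨e', b1, b2⟩
    obtain ⟨y', a1, a2⟩ := h4 e' b1 b2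
    refine ⟨insert y B, ⟨h1, fun B' hB' => (hm B' hB').trans (by omega)⟩,
      fun v => Finset.mem_insert, e', y', b1, a2, a1, fun g hg => ?_⟩
    by_cases hge : g = e
    · exact Or.inl hge
    · exact Or.inr ((Set.ncard_le_one hfO).1 (by omega) g ⟨hge, hg⟩ e' ⟨b1, b2⟩)

end Pool.Agent.MP_221c76_co.Tm
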