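import Pool.Agent.MP_221c76_co.Tm.St

universe u

namespace Pool.Agent.MP_221c76_co.Tm

open MultiGraph

namespace M

variable {G : MultiGraph.{u}} {A : Finset G.V} {j : ℕ} {p : Fin j → ℕ → G.V} {f : Fin j → ℕ → G.E}

lemma mem_ray (R : Rays G A j p f) {i i' : Fin j} {t t' : ℕ}
    (h : p i (t + 1) ∈ G.ends (f i' t')) : i = i' ∧ (t' = t ∨ t' = t + 1) := by
  rw [R.edge, Sym2.mem_iff] at h
  rcases h with h | h
  · cases t' with
    | zero => exact absurd (h ▸ R.start i') (R.out i t)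
    | succ s =>
      obtain ⟨h1, h2⟩ := R.inj _ _ _ _ h
      exact ⟨h1, Or.inr (by rw [h2])⟩
  · obtain ⟨h1, h2⟩ := R.inj _ _ _ _ h
    exact ⟨h1, Or.inl h2.symm⟩

lemma end_mem (R : Rays G A j p f) (i : Fin j) (t : ℕ) : p i (t + 1) ∈ G.ends (f i t) := by
  rw [R.edge]
  exact Sym2.mem_mk_right _ _

lemma f_inj (R : Rays G A j p f) {i i' : Fin j} {t t' : ℕ} (h : f i t = f i' t') :
    i = i' ∧ t = t' := by
  have h1 := mem_ray R (h ▸ end_mem R i t)
  have h2 := mem_ray R (h.symm ▸ end_mem R i' t')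
  exact ⟨h1.1, by omega⟩

lemma not_inner (R : Rays G A j p f) (i : Fin j) (t : ℕ) : ¬ ∀ x ∈ G.ends (f i t), x ∈ A :=
  fun h => R.out i t (h _ (end_mem R i t))

lemma inner_finite {k : ℕ} (hI : Ineq G k) (A : Finset G.V) :
    {e : G.E | ∀ x ∈ G.ends e, x ∈ A}.Finite := by
  by_contra h
  obtain ⟨W, hW, hc⟩ := Set.Infinite.exists_subset_card_eq h (A.card + k + 1)
  have := hI A W ∅ (fun _ => ∅) (fun e he => hW he) (by simp) (by simp) (by simp) (by simp)
  rw [Finset.card_empty] at this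
  omega

lemma count {k : ℕ} (hI : Ineq G k) (R : Rays G A j p f) (W : Finset G.E)
    (hW : ∀ e ∈ W, ∀ x ∈ G.ends e, x ∈ A) : W.card + j ≤ A.card + k := by
  classical
  have hc : (Finset.univ.image fun i => f i 0).card = j := by
    rw [Finset.card_image_of_injective _ (fun i i' h => (f_inj R h).1), Finset.card_univ,
      Fintype.card_fin]
  have := hI A W (Finset.univ.image fun i => f i 0) (fun e => {g | ∃ i t, e = f i 0 ∧ g = f i t})
    hW ?_ ?_ ?_ ?_
  · rwa [hc] at this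
  · intro t ht
    obtain ⟨i, -, rfl⟩ := Finset.mem_image.1 ht
    exact ⟨i, 0, rfl, rfl⟩
  · rintro t - e he ⟨i, s, -, rfl⟩
    exact not_inner R i s (hW _ he)
  · rintro t - t' ht' ⟨i, s, rfl, h⟩
    obtain ⟨i', -, rfl⟩ := Finset.mem_image.1 ht'
    rw [(f_inj R h).1]
  · rintro t - e ⟨i, s, rfl, rfl⟩ e' he' x hx hx'
    rcases R.vcov x with h | ⟨i2, t2, rfl⟩
    · exact h
    · rcases R.ecov e' with h | ⟨i3, t3, rfl⟩
      · exact h _ hx'
      · refine absurd ⟨i, t3, rfl, ?_⟩ he'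
        rw [← (mem_ray R hx).1, (mem_ray R hx').1]

end M

theorem s_M : StM.{u} := by
  classical
  rintro G k A hI ⟨j, p, f, R⟩
  let W := (M.inner_finite hI A).toFinset
  have hW : ∀ e, e ∈ W ↔ ∀ x ∈ G.ends e, x ∈ A := fun e => Set.Finite.mem_toFinset _
  let a : Fin A.card ≃ A := A.equivFin.symm
  let w : Fin W.card ≃ W := W.equivFin.symm
  let b : Fin j → Fin A.card := fun i => a.symm ⟨p i 0, R.start i⟩
  let en : Fin W.card → Sym2 (Fin A.card) := fun e =>
    ((G.ends (w e).1).attachWith ((hW _).1 (w e).2)).map a.symm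
  refine ⟨W.card, j, en, b, M.count hI R W (fun e he => (hW e).1 he), iso_symm ?_⟩
  let φ : ULift.{u} (Fin A.card ⊕ Fin j × ℕ) → G.V := fun x =>
    x.down.elim (fun y => (a y).1) (fun y => p y.1 (y.2 + 1))
  let ψ : ULift.{u} (Fin W.card ⊕ Fin j × ℕ) → G.E := fun x =>
    x.down.elim (fun y => (w y).1) (fun y => f y.1 y.2)
  have hφ : ∀ i t, φ (mvert b i t) = p i t := by
    intro i t
    cases t with
    | zero => exact congrArg Subtype.val (a.apply_symm_apply ⟨p i 0, R.start i⟩)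
    | succ t => rfl
  refine iso_of_maps (G := model.{u} A.card W.card j en b) φ ψ ⟨?_, ?_⟩ ⟨?_, ?_⟩ ?_
  · rintro ⟨x | ⟨i, t⟩⟩ ⟨y | ⟨i', t'⟩⟩ h
    · have h' : (a x).1 = (a y).1 := h
      rw [a.injective (Subtype.ext h')]
    · have h' : (a x).1 = p i' (t' + 1) := h
      exact absurd (h' ▸ (a x).2) (R.out i' t')
    · have h' : p i (t + 1) = (a y).1 := h
      exact absurd (h' ▸ (a y).2) (R.out i t)
    · obtain ⟨h1, h2⟩ := R.inj _ _ _ _ h
      rw [show i = i' from h1, show t = t' from h2]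
  · intro x
    rcases R.vcov x with h | ⟨i, t, h⟩
    · exact ⟨⟨.inl (a.symm ⟨x, h⟩)⟩, congrArg Subtype.val (a.apply_symm_apply ⟨x, h⟩)⟩
    · exact ⟨⟨.inr (i, t)⟩, h.symm⟩
  · rintro ⟨x | ⟨i, t⟩⟩ ⟨y | ⟨i', t'⟩⟩ h
    · have h' : (w x).1 = (w y).1 := h
      rw [w.injective (Subtype.ext h')]
    · have h' : (w x).1 = f i' t' := h
      exact absurd ((hW _).1 (h' ▸ (w x).2)) (M.not_inner R i' t')
    · have h' : f i t = (w y).1 := h
      exact absurd ((hW _).1 (h' ▸ (w y).2)) (M.not_inner R i t)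
    · obtain ⟨h1, h2⟩ := M.f_inj R (show f i t = f i' t' from h)
      rw [h1, h2]
  · intro e
    rcases R.ecov e with h | ⟨i, t, h⟩
    · exact ⟨⟨.inl (w.symm ⟨e, (hW e).2 h⟩)⟩,
        congrArg Subtype.val (w.apply_symm_apply ⟨e, (hW e).2 h⟩)⟩
    · exact ⟨⟨.inr (i, t)⟩, h.symm⟩
  · rintro ⟨e | ⟨i, t⟩⟩
    · change G.ends (w e).1 = ((en e).map fun x => (⟨.inl x⟩ : ULift.{u} _)).map φ
      rw [Sym2.map_map, Sym2.map_map]
      conv_lhs => rw [← Sym2.attachWith_map_subtypeVal ((hW _).1 (w e).2)]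
      congr 1
      funext x
      exact (congrArg Subtype.val (a.apply_symm_apply x)).symm
    · change G.ends (f i t) = s(mvert b i t, mvert b i (t + 1)).map φ
      rw [Sym2.map_mk, hφ, hφ, R.edge]

end Pool.Agent.MP_221c76_co.Tm
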