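import Pool.Agent.MP_221c76_co.Tm.St

universe u

namespace Pool.Agent.MP_221c76_co.Tm

open MultiGraph

namespace R

variable {G : MultiGraph.{u}} {k j : ℕ} {A : Finset G.V} {p : Fin j → ℕ → G.V}
  {f : Fin j → ℕ → G.E}

lemma same (R : Rays G A j p f) {i i' : Fin j} {t t' : ℕ} (h : p i t ∉ A) (e : p i t = p i' t') :
    i = i' := by
  cases t with
  | zero => exact absurd (R.start i) h
  | succ t =>
    cases t' with
    | zero => exact absurd (e ▸ R.start i') h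
    | succ t' => exact (R.inj _ _ _ _ e).1

lemma endA (R : Rays G A j p f) {i : Fin j} {t : ℕ} {x : G.V} (h : x ∈ G.ends (f i t))
    (hx : x ∈ A) : t = 0 ∧ x = p i 0 := by
  rw [R.edge, Sym2.mem_iff] at h
  rcases h with rfl | rfl
  · cases t with
    | zero => exact ⟨rfl, rfl⟩
    | succ t => exact absurd hx (R.out i t)
  · exact absurd hx (R.out i t)

lemma share (R : Rays G A j p f) {i : Fin j} {t : ℕ} {x : G.V} {e : G.E} (hx : x ∉ A)
    (h : x ∈ G.ends (f i t)) (he : x ∈ G.ends e) : ∃ t', e = f i t' := by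
  obtain ⟨i', t', rfl⟩ := (R.ecov e).resolve_left fun h => hx (h x he)
  rw [R.edge, Sym2.mem_iff] at h he
  obtain rfl : i = i' := by
    rcases h with rfl | rfl <;> rcases he with e | e <;> exact same R hx e
  exact ⟨t', rfl⟩

lemma far (R : Rays G A j p f) (i : Fin j) (t : ℕ) : p i (t + 1) ∈ G.ends (f i t) := by
  rw [R.edge]
  exact Sym2.mem_mk_right _ _

lemma finj (R : Rays G A j p f) {i i' : Fin j} {t t' : ℕ} (e : f i t = f i' t') : i = i' := by
  have h := far R i t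
  rw [e, R.edge, Sym2.mem_iff] at h
  rcases h with h | h <;> exact same R (R.out i t) h

lemma edges (hI : Ineq G k) (R : Rays G A j p f) : ∃ F : Finset G.E, F.card ≤ A.card + k ∧
    ∀ e, ∀ x ∈ G.ends e, x ∈ A → e ∈ F := by
  classical
  have h0 : {e | ∀ x ∈ G.ends e, x ∈ A}.Finite := by
    by_contra h
    obtain ⟨W, h1, h2⟩ := Set.Infinite.exists_subset_card_eq h (A.card + k + 1)
    have := hI A W ∅ (fun _ => ∅) (fun e he => h1 he) (by simp) (by simp) (by simp) (by simp)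
    omega
  refine ⟨h0.toFinset ∪ Finset.univ.image fun i => f i 0, (Finset.card_union_le _ _).trans
    (hI A _ _ (fun e => {g | ∃ i t, e = f i 0 ∧ g = f i t}) (fun e he => h0.mem_toFinset.1 he)
      ?_ ?_ ?_ ?_), fun e x hx hA => ?_⟩
  · simp only [Finset.forall_mem_image]
    exact fun i _ => ⟨i, 0, rfl, rfl⟩
  · rintro _ _ e he ⟨i, t, -, rfl⟩
    exact R.out i t (h0.mem_toFinset.1 he _ (far R i t))
  · simp only [Finset.forall_mem_image]
    rintro i - i' - ⟨i₁, t, h1, h2⟩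
    rw [finj R h1, finj R h2]
  · rintro _ - _ ⟨i, t, rfl, rfl⟩ e' he' x h1 h2
    by_contra hx
    obtain ⟨t', h⟩ := share R hx h1 h2
    exact he' ⟨i, t', rfl, h⟩
  · rcases R.ecov e with h | ⟨i, t, rfl⟩
    · exact Finset.mem_union_left _ (h0.mem_toFinset.2 h)
    · obtain ⟨rfl, -⟩ := endA R hx hA
      exact Finset.mem_union_right _ (Finset.mem_image_of_mem _ (Finset.mem_univ i))

lemma loops (hI : Ineq G k) (hN : G.NoIsolatedVertex) (R : Rays G A j p f) (X : Finset G.V)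
    (hA : ∀ w ∈ X, w ∈ A) (hX : ∀ w ∈ X, ∀ e, w ∈ G.ends e → ∀ x ∈ G.ends e, x ∈ A → x = w) :
    X.card ≤ k := by
  classical
  choose c hc using hN
  have := hI ∅ ∅ (X.image c) (fun e => {g | ∃ w ∈ X, w ∈ G.ends e ∧
    (w ∈ G.ends g ∨ ∃ i t, p i 0 = w ∧ g = f i t)}) (by simp) ?_ (by simp) ?_ ?_
  · rw [Finset.card_image_of_injOn fun w hw w' hw' (e : c w = c w') =>
      hX w' hw' _ (hc w') w (e ▸ hc w) (hA w hw)] at this
    simpa using this
  · simp only [Finset.forall_mem_image]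
    exact fun w hw => ⟨w, hw, hc w, .inl (hc w)⟩
  · simp only [Finset.forall_mem_image]
    rintro w hw w' hw' ⟨v, hv, h1, h2 | ⟨i, t, h2, h3⟩⟩
    · rw [hX v hv _ h1 w (hc w) (hA w hw), hX v hv _ h2 w' (hc w') (hA w' hw')]
    · rw [hX v hv _ h1 w (hc w) (hA w hw), ← h2, ← (endA R (h3 ▸ hc w') (hA w' hw')).2]
  · rintro g - e ⟨v, hv, h1, h2⟩ e' he' x h3 h4
    refine absurd ⟨v, hv, h1, ?_⟩ he'
    by_cases hx : x ∈ A
    · rcases h2 with h2 | ⟨i, t, h2, rfl⟩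
      · exact .inl (hX v hv e h2 x h3 hx ▸ h4)
      · exact .inl (h2 ▸ (endA R h3 hx).2 ▸ h4)
    · obtain ⟨i, t, rfl⟩ := (R.ecov e).resolve_left fun h => hx (h x h3)
      obtain ⟨t', rfl⟩ := share R hx h3 h4
      rcases h2 with h2 | ⟨i', t₁, h2, h5⟩
      · exact .inr ⟨i, t', (endA R h2 (hA v hv)).2.symm, rfl⟩
      · exact .inr ⟨i, t', finj R h5 ▸ h2, rfl⟩

lemma two (hI : Ineq G k) (hL : NoLeaf G) (hN : G.NoIsolatedVertex) (R : Rays G A j p f)
    (hk : 5 * k < A.card) : ∃ w ∈ A, ∃ a ∈ A, ∃ c e₁ e₂, a ≠ w ∧ c ≠ w ∧ e₁ ≠ e₂ ∧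
      G.ends e₁ = s(c, w) ∧ G.ends e₂ = s(w, a) ∧ ∀ e, w ∈ G.ends e → e = e₁ ∨ e = e₂ := by
  classical
  by_contra hn
  push Not at hn
  obtain ⟨F, h1, h2⟩ := edges hI R
  let P : G.V → Prop := fun w => ∀ e, w ∈ G.ends e → ∀ x ∈ G.ends e, x ∈ A → x = w
  have h3 := loops hI hN R (A.filter P) (fun w hw => (Finset.mem_filter.1 hw).1)
    fun w hw => (Finset.mem_filter.1 hw).2
  have h4 := Finset.card_filter_add_card_filter_not (s := A) P
  have e0 : ∀ e, ∃ x y, G.ends e = s(x, y) := fun e => by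
    obtain ⟨⟨x, y⟩, h⟩ := Quot.exists_rep (G.ends e)
    exact ⟨x, y, h.symm⟩
  choose x y hxy using e0
  let d : G.E → G.V → ℕ := fun e w => (if x e = w then 1 else 0) + if y e = w then 1 else 0
  have d1 : ∀ e w, w ∈ G.ends e → 1 ≤ d e w := fun e w h => by
    rw [hxy, Sym2.mem_iff] at h
    rcases h with rfl | rfl <;> simp [d]
  have d2 : ∀ e w, G.ends e = s(w, w) → d e w = 2 := fun e w h => by
    rw [hxy, Sym2.eq_iff, or_self] at h
    simp [d, h.1, h.2]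
  have h5 : ∀ w ∈ A.filter fun w => ¬ P w, 3 ≤ ∑ e ∈ F, d e w := fun w hw => by
    obtain ⟨hw, h⟩ := Finset.mem_filter.1 hw
    simp only [P, not_forall] at h
    obtain ⟨e₂, a1, a, a2, a3, a4⟩ := h
    have a5 : G.ends e₂ = s(a, w) := (Sym2.mem_and_mem_iff a4).1 ⟨a2, a1⟩
    obtain ⟨e₁, b1, b2⟩ := hL e₂ a w a5 a4
    obtain ⟨c, hc⟩ := Sym2.mem_iff_exists.1 b2
    have m1 := h2 e₁ w b2 hw
    have m2 := h2 e₂ w a1 hw
    by_cases e : c = w
    · have := Finset.add_le_sum (f := fun e => d e w) (fun _ _ => Nat.zero_le _) m1 m2 b1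
      have := d1 _ _ a1
      have := d2 e₁ w (e ▸ hc)
      omega
    · obtain ⟨e₃, c1, c2, c3⟩ := hn w hw a a3 c e₁ e₂ a4 e b1 (hc.trans Sym2.eq_swap)
        (a5.trans Sym2.eq_swap)
      have := Finset.add_le_sum (s := F.erase e₃) (f := fun e => d e w) (fun _ _ => Nat.zero_le _)
        (Finset.mem_erase.2 ⟨c2.symm, m1⟩) (Finset.mem_erase.2 ⟨c3.symm, m2⟩) b1
      have := Finset.add_sum_erase F (fun e => d e w) (h2 e₃ w c1 hw)
      have := d1 _ _ a1
      have := d1 _ _ b2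
      have := d1 _ _ c1
      omega
  have h6 := Finset.card_nsmul_le_sum _ _ _ h5
  have h7 := Finset.sum_le_card_nsmul F (fun e => ∑ w ∈ A.filter fun w => ¬ P w, d e w) 2
    fun e _ => by
      simp only [d, Finset.sum_add_distrib, Finset.sum_ite_eq]
      split_ifs <;> omega
  rw [Finset.sum_comm] at h6
  simp only [smul_eq_mul] at h6 h7
  omega

end R

theorem s_R : StR.{u} := by
  classical
  rintro G k A hI hL hN ⟨j, p, f, R⟩ hk
  obtain ⟨w, hw, a, ha, c, e₁, e₂, h1, h2, h3, h4, h5, h6⟩ := Tm.R.two hI hL hN R hk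
  let ρ : G.V → {v // v ≠ w} := fun x => if h : x = w then ⟨a, h1⟩ else ⟨x, h⟩
  have r1 : ∀ x (h : x ≠ w), ρ x = ⟨x, h⟩ := fun x h => dif_neg h
  have r2 : ρ w = ⟨a, h1⟩ := dif_pos rfl
  have r3 : ∀ x, (ρ x).1 ∈ A ↔ x ∈ A := fun x => by
    by_cases h : x = w
    · rw [h, r2]
      exact iff_of_true ha hw
    · rw [r1 x h]
  have r4 : ∀ i t, (ρ (p i (t + 1))).1 = p i (t + 1) := fun i t => by
    rw [r1 (p i (t + 1)) fun h => R.out i t (h ▸ hw)]
  have r5 : ∀ i t, f i t ≠ e₂ := fun i t e => by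
    have := Tm.R.far R i t
    rw [e, h5, Sym2.mem_iff] at this
    rcases this with h | h <;> refine R.out i t (h ▸ ?_) <;> assumption
  let K : MultiGraph.{u} := ⟨{v // v ≠ w}, {e // e ≠ e₂}, fun e => (G.ends e.1).map ρ⟩
  refine ⟨K, A.subtype fun v => v ≠ w, ?_, ⟨j, fun i t => ρ (p i t), fun i t => ⟨f i t, r5 i t⟩,
    fun i => Finset.mem_subtype.2 ((r3 _).2 (R.start i)),
    fun i t h => R.out i t ((r3 _).1 (Finset.mem_subtype.1 h)),
    fun i t i' t' h => R.inj _ _ _ _ (by rw [← r4, h, r4]), fun i t => ?_, fun x => ?_,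
    fun e => ?_⟩, ?_⟩
  · refine subdiv_of_maps (K := K) Subtype.val Subtype.val ⟨e₁, h3⟩ ⟨c, h2⟩ ⟨a, h1⟩ w e₂
      Subtype.val_injective Subtype.val_injective (fun x => x.2) (fun y h => ⟨⟨y, h⟩, rfl⟩)
      (fun x => x.2) (fun y h => ⟨⟨y, h⟩, rfl⟩) ?_ h4 h5 fun e he => ?_
    · change (G.ends e₁).map ρ = _
      rw [h4, Sym2.map_mk, r1 c h2, r2]
    · change _ = ((G.ends e.1).map ρ).map _
      rw [Sym2.map_map, Sym2.map_congr (g := id) fun x hx => ?_, Sym2.map_id, id]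
      rw [Function.comp, r1 x fun h => (h6 e.1 (h ▸ hx)).elim (fun h => he (Subtype.ext h)) e.2, id]
  · change (G.ends (f i t)).map ρ = _
    rw [R.edge, Sym2.map_mk]
  · refine (R.vcov x.1).imp Finset.mem_subtype.2 fun ⟨i, t, h⟩ => ⟨i, t, Subtype.ext ?_⟩
    rw [r4, h]
  · refine (R.ecov e.1).imp (fun h x hx => ?_) fun ⟨i, t, h⟩ => ⟨i, t, Subtype.ext h⟩
    obtain ⟨y, hy, rfl⟩ := Sym2.mem_map.1 hx
    exact Finset.mem_subtype.2 ((r3 y).2 (h y hy))
  · rw [Finset.card_subtype]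
    exact Finset.card_lt_card (Finset.filter_ssubset.2 ⟨w, hw, fun h => h rfl⟩)

end Pool.Agent.MP_221c76_co.Tm
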