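import Pool.Agent.MP_221c76_co.Tm.St

/-! Rays from a family of finite vertex sets. -/

universe u

namespace Pool.Agent.MP_221c76_co.Tm

open MultiGraph

namespace S

/-- A set of the family with an edge leaving it. -/
structure State (G : MultiGraph.{u}) (F : Set (Finset G.V)) (A : Finset G.V) where
  B : Finset G.V
  x : G.V
  e : G.E
  y : G.V
  hB : B ∈ F
  hA : ∀ v ∈ A, v ∈ B
  hx : x ∈ B
  hy : y ∉ B
  he : G.ends e = s(x, y)

variable {G : MultiGraph.{u}} {F : Set (Finset G.V)} {A : Finset G.V}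

lemma exists_next (hF : Fam G F) (s : State G F A) : ∃ s' : State G F A, s'.x = s.y ∧
    (∀ v, v ∈ s'.B ↔ v = s.y ∨ v ∈ s.B) ∧ ∀ g, s.y ∈ G.ends g → g = s.e ∨ g = s'.e := by
  obtain ⟨B', hB', h1, e', y', -, h3, h4, h5⟩ := hF.grow s.B s.hB s.x s.hx s.y s.hy s.e s.he
  exact ⟨⟨B', s.y, e', y', hB', fun v hv => (h1 v).2 (Or.inr (s.hA v hv)), (h1 _).2 (Or.inl rfl),
    h4, h3⟩, rfl, h1, h5⟩

lemma path_symm {x y : G.V}
    (h : Relation.ReflTransGen (fun x y => x ∉ A ∧ y ∉ A ∧ Adj G x y) x y) :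
    Relation.ReflTransGen (fun x y => x ∉ A ∧ y ∉ A ∧ Adj G x y) y x := by
  induction h with
  | refl => exact .refl
  | tail _ h ih =>
    obtain ⟨h1, h2, e, he⟩ := h
    exact .head ⟨h2, h1, e, he.trans Sym2.eq_swap⟩ ih

end S

open S in
theorem s_S : StS.{u} := by
  classical
  intro G F hF
  obtain ⟨A, hA⟩ := hF.ne
  have hD := hF.fin A hA
  set j := hD.toFinset.card with hj
  set q : hD.toFinset ≃ Fin j := hD.toFinset.equivFin with hq
  have h0 : ∀ i : Fin j, ∃ s : State G F A, s.B = A ∧ s.e = (q.symm i).1 := by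
    intro i
    obtain ⟨x, hx, y, hy, he⟩ := hD.mem_toFinset.1 (q.symm i).2
    exact ⟨⟨A, x, _, y, hA, fun _ h => h, hx, hy, he⟩, rfl, rfl⟩
  choose ini hB he using h0
  have hx0 : ∀ i, (ini i).x ∈ A := fun i => by
    have := (ini i).hx
    rwa [hB] at this
  choose nx hx hv hg using exists_next (A := A) hF
  set st : Fin j → ℕ → State G F A := fun i t => nx^[t] (ini i) with hst
  have hs : ∀ i t, st i (t + 1) = nx (st i t) := fun i t => Function.iterate_succ_apply' _ _ _
  have hz : ∀ i, st i 0 = ini i := fun i => rfl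
  have hp : ∀ i t, (st i (t + 1)).x = (st i t).y := fun i t => by rw [hs, hx]
  have hout : ∀ i t, (st i t).y ∉ A := fun i t h => (st i t).hy ((st i t).hA _ h)
  have hmono : ∀ i t t', t < t' → (st i t).y ∈ (st i t').B := by
    intro i t t' h
    induction t', h using Nat.le_induction with
    | base => rw [Nat.succ_eq_add_one, hs, hv]; exact Or.inl rfl
    | succ n _ ih => rw [hs, hv]; exact Or.inr ih
  have hpath : ∀ i t, Relation.ReflTransGen (fun x y => x ∉ A ∧ y ∉ A ∧ Adj G x y)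
      (ini i).y (st i t).y := by
    intro i t
    induction t with
    | zero => exact .refl
    | succ t ih =>
      exact ih.tail ⟨hout i t, hout i (t + 1), (st i (t + 1)).e, by rw [← hp]; exact (st i _).he⟩
  have hedge : ∀ (g : G.E) (x : G.V), x ∈ G.ends g → (x ∈ A ∨ ∃ i t, x = (st i (t + 1)).x) →
      (∀ x ∈ G.ends g, x ∈ A) ∨ ∃ i t, g = (st i t).e := by
    rintro g x hxg (h | ⟨i, t, rfl⟩)
    · obtain ⟨y, hy⟩ := Sym2.mem_iff_exists.1 hxg
      by_cases hyA : y ∈ A
      · refine Or.inl fun z hz => ?_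
        rw [hy, Sym2.mem_iff] at hz
        rcases hz with rfl | rfl <;> assumption
      · refine Or.inr ⟨q ⟨g, hD.mem_toFinset.2 ⟨x, h, y, hyA, hy⟩⟩, 0, ?_⟩
        rw [hz, he, Equiv.symm_apply_apply]
    · rw [hp] at hxg
      rcases hg _ g hxg with h | h
      · exact Or.inr ⟨i, t, h⟩
      · exact Or.inr ⟨i, t + 1, by rw [hs]; exact h⟩
  have hvcov : ∀ x, x ∈ A ∨ ∃ i t, x = (st i (t + 1)).x := by
    intro x
    obtain ⟨a, ha, h⟩ := hF.cover A hA x
    induction h with
    | refl => exact Or.inl ha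
    | @tail b c _ h ih =>
      obtain ⟨g, hgb⟩ := h
      have hc : c ∈ G.ends g := by rw [hgb]; exact Sym2.mem_mk_right _ _
      rcases hedge g b (by rw [hgb]; exact Sym2.mem_mk_left _ _) ih with h | ⟨i, t, rfl⟩
      · exact Or.inl (h c hc)
      · rw [(st i t).he, Sym2.mem_iff] at hc
        rcases hc with rfl | rfl
        · rcases t with _ | t
          · exact Or.inl (hx0 i)
          · exact Or.inr ⟨i, t, rfl⟩
        · exact Or.inr ⟨i, t, (hp i t).symm⟩
  refine ⟨A, j, fun i t => (st i t).x, fun i t => (st i t).e, hx0,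
    fun i t => by rw [hp]; exact hout i t, fun i t i' t' h => ?_,
    fun i t => by rw [hp]; exact (st i t).he, hvcov, fun g => ?_⟩
  · rw [hp, hp] at h
    have h1 := hF.sep A hA _ (hx0 i) _ (hx0 i') _ _ (hout i 0) (hout i' 0)
      _ _ (ini i).he (ini i').he ((hpath i t).trans (h ▸ path_symm (hpath i' t')))
    rw [he, he] at h1
    obtain rfl : i = i' := q.symm.injective (Subtype.ext h1)
    refine ⟨rfl, ?_⟩
    rcases lt_trichotomy t t' with h2 | h2 | h2
    · exact absurd (h ▸ hmono i t t' h2) (st i t').hy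
    · exact h2
    · exact absurd (h ▸ hmono i t' t h2) (st i t).hy
  · exact hedge g _ (G.ends g).out_fst_mem (hvcov _)

end Pool.Agent.MP_221c76_co.Tm
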