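import Pool.Agent.MP_221c76_co.Tm.Star
import Pool.Agent.MP_221c76_co.Tm.F
import Pool.Agent.MP_221c76_co.Tm.S
import Pool.Agent.MP_221c76_co.Tm.R
import Pool.Agent.MP_221c76_co.Tm.M

universe u

namespace Pool.Agent.MP_221c76_co.Tm

open MultiGraph Set

variable {P : Set MultiGraph.{u}}

lemma Hyp.hasCore (hP : Hyp P) {G : MultiGraph.{u}} (hG : G ∈ P) : ∃ A, HasCore G A := by
  obtain ⟨k, hk⟩ := hP.ineq
  obtain ⟨F, hF⟩ := s_F G k (hk G hG) (hP.noLeaf hG) (hP.noiso G hG)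
  exact s_S G F hF

/-- bounded data of a model graph -/
abbrev Data (N : ℕ) : Type :=
  Σ (n : Fin N) (m : Fin N) (j : Fin N), (Fin m → Sym2 (Fin n)) × (Fin j → Fin n)

def Data.graph {N : ℕ} (d : Data N) : MultiGraph.{u} :=
  model d.1 d.2.1 d.2.2.1 d.2.2.2.1 d.2.2.2.2

lemma Hyp.reduce (hP : Hyp P) {k : ℕ} (hk : ∀ G ∈ P, Ineq G k) (n : ℕ) :
    ∀ (G : MultiGraph.{u}) (hG : G ∈ P) (A : Finset G.V), HasCore G A → A.card = n →
      ∃ (d : Data (6 * k + 1)) (hd : d.graph ∈ P),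
        Quot.mk (fun G H : P => G.1.Homeomorphic H.1) ⟨d.graph, hd⟩ = Quot.mk _ ⟨G, hG⟩ := by
  induction n using Nat.strong_induction_on with
  | _ n ih =>
    intro G hG A hA hn
    by_cases h : 5 * k < A.card
    · obtain ⟨K, A', hK, hA', hlt⟩ := s_R G k A (hk G hG) (hP.noLeaf hG) (hP.noiso G hG) hA h
      have hKP : K ∈ P := hP.cl G hG K (homeo_of_step' hK)
      obtain ⟨d, hd, h1⟩ := ih A'.card (hn ▸ hlt) K hKP A' hA' rfl
      exact ⟨d, hd, h1.trans (Quot.sound (homeo_of_step hK))⟩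
    · obtain ⟨m, j, en, b, h1, h2⟩ := s_M G k A (hk G hG) hA
      refine ⟨⟨⟨A.card, by omega⟩, ⟨m, by omega⟩, ⟨j, by omega⟩, en, b⟩, hP.iso_mem hG h2, ?_⟩
      exact Quot.sound (homeo_of_iso (iso_symm h2))

theorem Hyp.finite (hP : Hyp P) : Finite (Quot fun G H : P => G.1.Homeomorphic H.1) := by
  obtain ⟨k, hk⟩ := hP.ineq
  refine Finite.of_surjective (fun d : {d : Data (6 * k + 1) // d.graph ∈ P} =>
    Quot.mk (fun G H : P => G.1.Homeomorphic H.1) ⟨d.1.graph, d.2⟩) ?_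
  intro q
  induction q using Quot.ind with
  | _ G =>
    obtain ⟨A, hA⟩ := hP.hasCore G.2
    obtain ⟨d, hd, h⟩ := hP.reduce hk _ G.1 G.2 A hA rfl
    exact ⟨⟨d, hd⟩, h⟩

end Pool.Agent.MP_221c76_co.Tm
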