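import Pool.Agent.MP_221c76_co.Defs

universe u

namespace Pool.Agent.MP_221c76_co.Tm

open MultiGraph

/-- The master inequality: edges `W` inside a finite vertex set `A`, and pieces `T t` (`t ∈ s`)
that share only vertices of `A` with the rest of the graph. -/
def Ineq (G : MultiGraph.{u}) (k : ℕ) : Prop :=
  ∀ (A : Finset G.V) (W s : Finset G.E) (T : G.E → Set G.E),
    (∀ e ∈ W, ∀ x ∈ G.ends e, x ∈ A) →
    (∀ t ∈ s, t ∈ T t) →
    (∀ t ∈ s, ∀ e ∈ W, e ∉ T t) →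
    (∀ t ∈ s, ∀ t' ∈ s, t' ∈ T t → t' = t) →
    (∀ t ∈ s, ∀ e ∈ T t, ∀ e', e' ∉ T t → ∀ x ∈ G.ends e, x ∈ G.ends e' → x ∈ A) →
    W.card + s.card ≤ A.card + k

/-- No vertex of degree one. -/
def NoLeaf (G : MultiGraph.{u}) : Prop :=
  ∀ e a w, G.ends e = s(a, w) → a ≠ w → ∃ e', e' ≠ e ∧ w ∈ G.ends e'

/-- Outside the finite set `A` the graph consists of `j` disjoint rays starting in `A`. -/
structure Rays (G : MultiGraph.{u}) (A : Finset G.V) (j : ℕ) (p : Fin j → ℕ → G.V)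
    (f : Fin j → ℕ → G.E) : Prop where
  start : ∀ i, p i 0 ∈ A
  out : ∀ i t, p i (t + 1) ∉ A
  inj : ∀ i t i' t', p i (t + 1) = p i' (t' + 1) → i = i' ∧ t = t'
  edge : ∀ i t, G.ends (f i t) = s(p i t, p i (t + 1))
  vcov : ∀ x, x ∈ A ∨ ∃ i t, x = p i (t + 1)
  ecov : ∀ e, (∀ x ∈ G.ends e, x ∈ A) ∨ ∃ i t, e = f i t

def HasCore (G : MultiGraph.{u}) (A : Finset G.V) : Prop := ∃ j p f, Rays G A j p f

/-- vertices of the rays of the model graph -/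
def mvert {n j : ℕ} (b : Fin j → Fin n) (i : Fin j) : ℕ → ULift.{u} (Fin n ⊕ Fin j × ℕ)
  | 0 => ⟨.inl (b i)⟩
  | t + 1 => ⟨.inr (i, t)⟩

/-- A finite graph on `Fin n` with `m` edges and `j` rays attached. -/
def model (n m j : ℕ) (en : Fin m → Sym2 (Fin n)) (b : Fin j → Fin n) : MultiGraph.{u} where
  V := ULift.{u} (Fin n ⊕ Fin j × ℕ)
  E := ULift.{u} (Fin m ⊕ Fin j × ℕ)
  ends
    | ⟨.inl e⟩ => (en e).map fun x => ⟨.inl x⟩
    | ⟨.inr (i, t)⟩ => s(mvert b i t, mvert b i (t + 1))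

lemma iso_of_maps {G H : MultiGraph.{u}} (φ : G.V → H.V) (ψ : G.E → H.E)
    (hφ : Function.Bijective φ) (hψ : Function.Bijective ψ)
    (h : ∀ e, H.ends (ψ e) = (G.ends e).map φ) : G.Iso H :=
  ⟨Equiv.ofBijective φ hφ, Equiv.ofBijective ψ hψ, h⟩

lemma iso_refl (G : MultiGraph.{u}) : G.Iso G := ⟨Equiv.refl _, Equiv.refl _, fun e => by simp⟩

lemma iso_symm {G H : MultiGraph.{u}} (h : G.Iso H) : H.Iso G := by
  obtain ⟨φ, ψ, h⟩ := h
  refine ⟨φ.symm, ψ.symm, fun e => ?_⟩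
  have := h (ψ.symm e)
  rw [Equiv.apply_symm_apply] at this
  rw [this, Sym2.map_map]
  simp

lemma iso_trans {G H K : MultiGraph.{u}} (h : G.Iso H) (h' : H.Iso K) : G.Iso K := by
  obtain ⟨φ, ψ, h⟩ := h
  obtain ⟨φ', ψ', h'⟩ := h'
  refine ⟨φ.trans φ', ψ.trans ψ', fun e => ?_⟩
  rw [Equiv.trans_apply, h', h, Sym2.map_map]
  rfl

/-- `G` is `K` with the edge `e = ab` replaced by the path `φ a, w, φ b` with edges `ψ e`, `g`. -/
lemma subdiv_of_maps {K G : MultiGraph.{u}} (φ : K.V → G.V) (ψ : K.E → G.E) (e : K.E) (a b : K.V)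
    (w : G.V) (g : G.E) (hφ : Function.Injective φ) (hψ : Function.Injective ψ)
    (hw : ∀ x, φ x ≠ w) (hw' : ∀ y, y ≠ w → ∃ x, φ x = y)
    (hg : ∀ x, ψ x ≠ g) (hg' : ∀ y, y ≠ g → ∃ x, ψ x = y)
    (he : K.ends e = s(a, b)) (h1 : G.ends (ψ e) = s(φ a, w)) (h2 : G.ends g = s(w, φ b))
    (h3 : ∀ e', e' ≠ e → G.ends (ψ e') = (K.ends e').map φ) : K.SubdivStep G := by
  refine ⟨e, a, b, he, ?_⟩
  refine iso_of_maps (G := K.subdivideEdge e a b) (fun x : Option K.V => x.elim w φ)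
    (fun x : {f : K.E // f ≠ e} ⊕ Bool =>
      x.elim (fun y => ψ y.1) (fun c => c.rec (ψ e) g)) ⟨?_, ?_⟩ ⟨?_, ?_⟩ ?_
  · rintro (_ | x) (_ | y) h
    · rfl
    · exact absurd h.symm (hw y)
    · exact absurd h (hw x)
    · exact congrArg some (hφ h)
  · intro y
    by_cases hy : y = w
    · exact ⟨none, hy.symm⟩
    · obtain ⟨x, hx⟩ := hw' y hy
      exact ⟨some x, hx⟩
  · rintro (x | _ | _) (y | _ | _) h
    · exact congrArg Sum.inl (Subtype.ext (hψ h))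
    · exact absurd (hψ h) x.2
    · exact absurd h (hg _)
    · exact absurd (hψ h).symm y.2
    · rfl
    · exact absurd h (hg _)
    · exact absurd h.symm (hg _)
    · exact absurd h.symm (hg _)
    · rfl
  · intro y
    by_cases hy : y = g
    · exact ⟨.inr true, hy.symm⟩
    · obtain ⟨x, hx⟩ := hg' y hy
      by_cases hxe : x = e
      · exact ⟨.inr false, by rw [← hx, hxe]; rfl⟩
      · exact ⟨.inl ⟨x, hxe⟩, hx⟩
  · rintro (x | _ | _)
    · change G.ends (ψ x.1) = ((K.ends x.1).map some).map _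
      rw [h3 x.1 x.2, Sym2.map_map]
      rfl
    · exact h1
    · exact h2

/-- adjacency -/
def Adj (G : MultiGraph.{u}) (x y : G.V) : Prop := ∃ e, G.ends e = s(x, y)

/-- A family of finite vertex sets that can be grown along forced paths. -/
structure Fam (G : MultiGraph.{u}) (F : Set (Finset G.V)) : Prop where
  ne : F.Nonempty
  cover : ∀ B ∈ F, ∀ x, ∃ a ∈ B, Relation.ReflTransGen (Adj G) a x
  grow : ∀ B ∈ F, ∀ x ∈ B, ∀ y, y ∉ B → ∀ e, G.ends e = s(x, y) →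
    ∃ B' ∈ F, (∀ v, v ∈ B' ↔ v = y ∨ v ∈ B) ∧
      ∃ e' y', e' ≠ e ∧ G.ends e' = s(y, y') ∧ y' ∉ B' ∧ ∀ g, y ∈ G.ends g → g = e ∨ g = e'
  fin : ∀ B ∈ F, {e | ∃ x ∈ B, ∃ y, y ∉ B ∧ G.ends e = s(x, y)}.Finite
  sep : ∀ B ∈ F, ∀ a ∈ B, ∀ a' ∈ B, ∀ v v', v ∉ B → v' ∉ B → ∀ e e', G.ends e = s(a, v) →
    G.ends e' = s(a', v') →
    Relation.ReflTransGen (fun x y => x ∉ B ∧ y ∉ B ∧ Adj G x y) v v' → e = e'

/-- Stub F: the family of double maximisers. -/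
def StF : Prop := ∀ (G : MultiGraph.{u}) (k : ℕ), Ineq G k → NoLeaf G → G.NoIsolatedVertex →
  ∃ F, Fam G F

/-- Stub S: rays from the family. -/
def StS : Prop := ∀ (G : MultiGraph.{u}) (F : Set (Finset G.V)), Fam G F → ∃ A, HasCore G A

/-- Stub R: reduction step. -/
def StR : Prop := ∀ (G : MultiGraph.{u}) (k : ℕ) (A : Finset G.V), Ineq G k → NoLeaf G →
  G.NoIsolatedVertex → HasCore G A → 5 * k < A.card →
  ∃ (K : MultiGraph.{u}) (A' : Finset K.V), K.SubdivStep G ∧ HasCore K A' ∧ A'.card < A.card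

/-- Stub M: identification with a model graph. -/
def StM : Prop := ∀ (G : MultiGraph.{u}) (k : ℕ) (A : Finset G.V), Ineq G k → HasCore G A →
  ∃ (m j : ℕ) (en : Fin m → Sym2 (Fin A.card)) (b : Fin j → Fin A.card),
    m + j ≤ A.card + k ∧ G.Iso (model.{u} A.card m j en b)

end Pool.Agent.MP_221c76_co.Tm
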