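import Pool.Agent.MP_221c76_co.Tm.Big

universe u

namespace Pool.Agent.MP_221c76_co.Tm

open MultiGraph Set

lemma skew_closure {α : Type*} {M : Matroid α} {I S Q : Set α} {t : α} (hI : M.Indep (S ∪ I))
    (hd : Disjoint S I) (hQ : Q ⊆ M.closure I) (ht : t ∈ M.closure I)
    (ht' : t ∈ M.closure (Q ∪ S)) : t ∈ M.closure Q := by
  by_contra hc
  have hII : M.Indep I := hI.subset subset_union_right
  have hQE : Q ⊆ M.E := hQ.trans (M.closure_subset_ground _)
  have htE : t ∈ M.E := M.closure_subset_ground _ ht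
  obtain ⟨J, hJ⟩ := M.exists_isBasis Q hQE
  have htJ : t ∉ J := fun h => hc (M.subset_closure Q hQE (hJ.subset h))
  have h1 : M.Indep (insert t J) := by
    rw [hJ.indep.insert_indep_iff_of_notMem htJ, hJ.closure_eq_closure]
    exact ⟨htE, hc⟩
  obtain ⟨J', hJ', hJJ⟩ := h1.subset_isBasis_of_subset (X := M.closure I)
    (insert_subset ht (hJ.subset.trans hQ)) (M.closure_subset_ground _)
  have hdis : Disjoint (M.closure I) S := by
    rw [Set.disjoint_right]
    intro x hx hxI
    have h2 := hI.notMem_closure_sdiff_of_mem (Or.inl hx)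
    refine h2 (M.closure_subset_closure (X := I) (fun y hy => ?_) hxI)
    refine ⟨Or.inr hy, fun h => ?_⟩
    rw [mem_singleton_iff.1 h] at hy
    exact Set.disjoint_left.1 hd hx hy
  have h3 := (hII.isBasis_closure.contract_indep_iff (J := S)).2 ⟨hI, hdis⟩
  have h4 := (hJ'.contract_indep_iff.1 h3).1
  have h5 := h4.notMem_closure_sdiff_of_mem (Or.inr (hJJ (mem_insert _ _)))
  apply h5
  refine M.closure_subset_closure_of_subset_closure (union_subset ?_ ?_) ht'
  · refine hJ.subset_closure.trans (M.closure_subset_closure fun y hy => ?_)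
    exact ⟨Or.inr (hJJ (mem_insert_of_mem _ hy)), fun h => htJ (mem_singleton_iff.1 h ▸ hy)⟩
  · refine Subset.trans (fun y hy => ?_) (M.subset_closure _ (sdiff_subset.trans h4.subset_ground))
    exact ⟨Or.inl hy, fun h => Set.disjoint_left.1 hdis ht (mem_singleton_iff.1 h ▸ hy)⟩

lemma count_closure {α : Type*} {M : Matroid α} {U Y F : Set α} (hI : M.Indep (Y ∪ U))
    (hd : Disjoint Y U) (hY : Y ⊆ M.closure (F ∪ U)) : Y.encard ≤ F.encard := by
  have h1 : (M.contract U).Indep Y :=
    (hI.subset subset_union_right).contract_indep_iff.2 ⟨hd, hI⟩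
  have h2 : Y ⊆ (M.contract U).closure F := by
    rw [Matroid.contract_closure_eq]
    exact subset_sdiff.2 ⟨hY, hd⟩
  refine (h1.encard_le_eRk_of_subset h2).trans ?_
  rw [Matroid.eRk_closure_eq]
  exact Matroid.eRk_le_encard _ _

/-- the master inequality from an apex star -/
lemma ineq_of_star {G : MultiGraph.{u}} {α : Type*} {M : Matroid α} (hE : M.E = univ) {k : ℕ}
    (Z : Finset α) (hZ : Z.card = k) (sv : G.V → α) (ι : G.E → α) (hs : Function.Injective sv)
    (hι : Function.Injective ι) (hZs : ∀ v, sv v ∉ Z) (hI : M.Indep (Z ∪ range sv))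
    (hC : M.IsCircuit (range ι))
    (hcl : ∀ e, ι e ∈ M.closure (Z ∪ sv '' {x | x ∈ G.ends e})) : Ineq G (k + 1) := by
  classical
  intro A W s T hW hT hTW hTs hsep
  have hsub : ∀ X : Set α, X ⊆ M.closure X := fun X =>
    M.subset_closure X (by rw [hE]; exact subset_univ _)
  let F : Set α := Z ∪ sv '' A
  have hpiece : ∀ t ∈ s, ι t ∈ M.closure (ι '' (T t \ {t}) ∪ F) := by
    intro t ht
    let V₁ : Set G.V := A ∪ {x | ∃ e ∈ T t, x ∈ G.ends e}
    have hin : ∀ e ∈ T t, ι e ∈ M.closure (Z ∪ sv '' V₁) := fun e he =>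
      M.closure_subset_closure (union_subset_union_right _
        (image_mono fun x hx => Or.inr ⟨e, he, hx⟩)) (hcl e)
    refine skew_closure (I := Z ∪ sv '' V₁) (S := sv '' V₁ᶜ) (hI.subset ?_) ?_ ?_
      (hin t (hT t ht)) ?_
    · exact union_subset ((image_subset_range _ _).trans subset_union_right)
        (union_subset_union_right _ (image_subset_range _ _))
    · rw [Set.disjoint_left]
      rintro _ ⟨x, hx, rfl⟩ (h | ⟨y, hy, h⟩)
      · exact hZs x h
      · exact hx (hs h ▸ hy)
    · refine union_subset ?_ (Subset.trans ?_ (hsub _))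
      · rintro _ ⟨e, he, rfl⟩
        exact hin e he.1
      · exact union_subset_union_right _ (image_mono subset_union_left)
    · refine M.closure_subset_closure_of_subset_closure ?_
        (hC.mem_closure_sdiff_singleton_of_mem ⟨t, rfl⟩)
      rintro _ ⟨⟨e, rfl⟩, he⟩
      have het : e ≠ t := fun h => he (by rw [h]; rfl)
      by_cases heT : e ∈ T t
      · exact hsub _ (Or.inl (Or.inl ⟨e, ⟨heT, het⟩, rfl⟩))
      · refine M.closure_subset_closure ?_ (hcl e)
        rintro y (hy | ⟨x, hx, rfl⟩)
        · exact Or.inl (Or.inr (Or.inl hy))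
        · by_cases hxA : x ∈ A
          · exact Or.inl (Or.inr (Or.inr ⟨x, hxA, rfl⟩))
          · refine Or.inr ⟨x, ?_, rfl⟩
            rintro (h | ⟨e', he', h⟩)
            · exact hxA h
            · exact hxA (hsep t ht e' he' e heT x h hx)
  have hdis : Disjoint W s := Finset.disjoint_left.2 fun e he hes => hTW e hes e he (hT e hes)
  rw [← Finset.card_union_of_disjoint hdis]
  rcases (W ∪ s).eq_empty_or_nonempty with h | ⟨r, hr⟩
  · rw [h]; simp
  let U : Set α := ι '' ((W ∪ s : Finset G.E) : Set G.E)ᶜ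
  have h1 := count_closure (M := M) (U := U) (Y := ι '' ((W ∪ s).erase r : Finset G.E)) (F := F)
    ((hC.sdiff_singleton_indep ⟨r, rfl⟩).subset (by
      rintro _ (⟨e, he, rfl⟩ | ⟨e, he, rfl⟩)
      · exact ⟨⟨e, rfl⟩, fun h => Finset.ne_of_mem_erase he (hι h)⟩
      · exact ⟨⟨e, rfl⟩, fun h => he (by rw [hι h]; exact hr)⟩))
    (by
      rw [Set.disjoint_left]
      rintro _ ⟨e, he, rfl⟩ ⟨e', he', h⟩
      exact he' (by rw [hι h]; exact Finset.mem_of_mem_erase he))
    (by
      rintro _ ⟨e, he, rfl⟩
      rcases Finset.mem_union.1 (Finset.mem_of_mem_erase he) with h | h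
      · refine M.closure_subset_closure ?_ (hcl e)
        exact (union_subset_union_right _ (image_mono fun x hx => hW e h x hx)).trans
          subset_union_left
      · refine M.closure_subset_closure ?_ (hpiece e h)
        rintro y (⟨c, hc, rfl⟩ | hy)
        · refine Or.inr ⟨c, fun hc' => ?_, rfl⟩
          rcases Finset.mem_union.1 hc' with h2 | h2
          · exact hTW e h c h2 hc.1
          · exact hc.2 (hTs e h c h2 hc.1)
        · exact Or.inl hy)
  have h2 : F.encard ≤ (k : ℕ∞) + A.card := by
    refine (encard_union_le _ _).trans (add_le_add ?_ ?_)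
    · rw [encard_coe_eq_coe_finsetCard, hZ]
    · rw [hs.encard_image, encard_coe_eq_coe_finsetCard]
  rw [hι.encard_image, encard_coe_eq_coe_finsetCard, Finset.card_erase_of_mem hr] at h1
  have h3 : (W ∪ s).card - 1 ≤ k + A.card := by exact_mod_cast h1.trans h2
  omega

variable {P : Set MultiGraph.{u}}

lemma Hyp.noLeaf (hP : Hyp P) {G : MultiGraph.{u}} (hG : G ∈ P) : NoLeaf G := by
  intro e a w h haw
  obtain ⟨e', -, h1, h2⟩ := hP.no_leaf (hP.univ_circ hG) (mem_univ e) h haw
  exact ⟨e', h1, h2⟩

lemma Hyp.ineq (hP : Hyp P) : ∃ k, ∀ G ∈ P, Ineq G k := by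
  classical
  rcases P.eq_empty_or_nonempty with rfl | hne
  · exact ⟨0, fun G hG => hG.elim⟩
  obtain ⟨k, hk⟩ := hP.bouquet hne
  refine ⟨k + 1, fun G hG => ?_⟩
  let z : (big G).V := .inr 0
  let l : ℕ → (big G).E := fun n => .inr (s(z, z), n)
  have hl : Function.Injective l := fun a b h => by simpa [l] using h
  let Z : Finset (big G).E := (Finset.range k).image l
  have hZc : Z.card = k := by rw [Finset.card_image_of_injective _ hl, Finset.card_range]
  have hZ : ∀ y ∈ Z, ∃ n < k, y = l n := fun y hy => by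
    obtain ⟨n, hn, rfl⟩ := Finset.mem_image.1 hy
    exact ⟨n, Finset.mem_range.1 hn, rfl⟩
  have hlZ : l k ∉ Z := fun h => by
    obtain ⟨n, hn, h⟩ := hZ _ h
    have := hl h
    omega
  have hB : (hP.M (big G)).IsCircuit (insert (l k) (Z : Set (big G).E)) := by
    have := hk (big G) z (insert (l k) Z) (by rw [Finset.card_insert_of_notMem hlZ, hZc]) (by
      intro y hy
      rcases Finset.mem_insert.1 hy with rfl | hy
      · rfl
      · obtain ⟨n, -, rfl⟩ := hZ y hy
        rfl)
    rwa [Finset.coe_insert] at this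
  let sv : G.V → (big G).E := fun v => .inr (s(z, .inl v), 0)
  let sw : G.V → (big G).E := fun v => .inr (s(.inl v, z), 1)
  have hs : Function.Injective sv := fun a b h => by simpa [sv, z] using h
  have hZv : ∀ y ∈ Z, ∀ v : G.V, (Sum.inl v : (big G).V) ∉ (big G).ends y := by
    intro y hy v
    obtain ⟨n, -, rfl⟩ := hZ y hy
    simp [l, z]
  have hdig : ∀ v, (hP.M (big G)).IsCircuit (insert (sv v) (insert (sw v) (Z : Set (big G).E))) := by
    intro v
    have := (hP.subdiv (Γ := big G) (C := insert (l k) (Z : Set (big G).E)) (e := l k) (f := sv v)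
      (g := sw v) (a := z) (b := z) (w := .inl v) (mem_insert _ _) rfl (by
        rintro y (rfl | hy)
        · simp [l, z]
        · exact hZv y hy v) (by simp [sv, sw]) rfl rfl).1 hB
    rwa [insert_sdiff_self_of_notMem (by simpa using hlZ)] at this
  refine ineq_of_star (hP.M_ground (big G)) Z hZc sv Sum.inl hs Sum.inl_injective ?_ ?_ ?_ ?_
  · intro v h
    exact hZv _ h v (by simp [sv])
  · rw [Matroid.indep_iff_forall_subset_not_isCircuit (by rw [hP.M_ground]; exact subset_univ _)]
    intro D hD hDc
    have h1 : D ⊆ Z := by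
      intro y hy
      rcases hD hy with h | ⟨v, rfl⟩
      · exact h
      · obtain ⟨e', he', hne, hv⟩ := hP.no_leaf hDc hy (a := z) (w := .inl v) rfl (by simp [z])
        rcases hD he' with h | ⟨v', rfl⟩
        · exact absurd hv (hZv _ h v)
        · have : v = v' := by simpa [sv, z] using hv
          exact absurd (by rw [this]) hne
    have h2 := hDc.eq_of_subset_isCircuit hB (h1.trans (subset_insert _ _))
    exact hlZ (h1 (h2 ▸ mem_insert _ _))
  · have := hP.big_iff.1 (hP.univ_circ hG)
    rwa [image_univ] at this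
  · intro e
    obtain ⟨a, b, hab⟩ : ∃ a b, G.ends e = s(a, b) := by
      induction G.ends e using Sym2.ind with
      | _ a b => exact ⟨a, b, rfl⟩
    by_cases h : a = b
    · subst h
      obtain ⟨D, hD, heD, hDc⟩ := hP.loop (hdig a) (e := sw a) (l := .inl e) (x := .inl a)
        (mem_insert_of_mem _ (mem_insert _ _)) (by simp [sw]) (by simp [hab]) (by
          rintro (h | h | h)
          · simp [sv] at h
          · simp [sw] at h
          · obtain ⟨n, -, h⟩ := hZ _ h
            simp [l] at h)
      refine hP.mem_closure hDc heD fun y hy hne => ?_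
      rcases hD hy with h | ⟨h | h | h, h'⟩
      · exact absurd h hne
      · exact Or.inr ⟨a, by simp [hab], h.symm⟩
      · exact absurd h h'
      · exact Or.inl h
    · have h1 := (hP.subdiv (Γ := big G) (e := sw a) (f := .inl e) (g := sv b) (a := .inl a)
        (b := z) (w := .inl b) (mem_insert_of_mem _ (mem_insert _ _)) rfl (by
          rintro y (rfl | rfl | hy)
          · simpa [sv, z] using Ne.symm h
          · simpa [sw, z] using Ne.symm h
          · exact hZv y hy b) (by simp [sv]) (by simp [hab]) Sym2.eq_swap).1 (hdig a)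
      refine hP.mem_closure h1 (mem_insert _ _) fun y hy hne => ?_
      rcases hy with h | h | ⟨h | h | h, h'⟩
      · exact absurd h hne
      · exact Or.inr ⟨b, by simp [hab], h.symm⟩
      · exact Or.inr ⟨a, by simp [hab], h.symm⟩
      · exact absurd h h'
      · exact Or.inl h

end Pool.Agent.MP_221c76_co.Tm
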